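import Pool.Agent.R395.FT.Tst

/-!
# The two searches are correct
-/

set_option autoImplicit false

namespace Pool.Agent.R395.FT

open Pool.Agent.TH841.AL (RealSol ModSol)
open Pool.Agent.W307.SE (SelR)

lemma dn_ne {A B : ℤ} (hA : A ≠ 0) (hB : B ≠ 0) (hAB : A ≠ B) : dn A B ≠ 0 :=
  mul_ne_zero (mul_ne_zero (mul_ne_zero two_ne_zero hA) hB) (sub_ne_zero.2 hAB)

/-- the two forms of the test -/
theorem fewC_iff {A B : ℤ} (hA : A ≠ 0) (hB : B ≠ 0) (hAB : A ≠ B) (m : ℕ) (l : List (ℤ × ℤ)) :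
    FewC A B m l ↔ Few A B m l := by
  have hn := dn_ne hA hB hAB
  unfold FewC Few
  refine and_congr_right fun _ => ?_
  constructor
  · intro h a d ha hd han hdn hp
    have b1 : |a| ≤ |dn A B| := Int.le_of_dvd (abs_pos.2 hn) ((abs_dvd_abs _ _).2 han)
    have b2 : |d| ≤ |dn A B| := Int.le_of_dvd (abs_pos.2 hn) ((abs_dvd_abs _ _).2 hdn)
    rw [Int.abs_eq_natAbs, Int.abs_eq_natAbs] at b1 b2
    obtain ⟨i, hi⟩ : ∃ i : ℕ, (i : ℤ) = a + (dn A B).natAbs :=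
      ⟨(a + (dn A B).natAbs).toNat, by omega⟩
    obtain ⟨j, hj⟩ : ∃ j : ℕ, (j : ℤ) = d + (dn A B).natAbs :=
      ⟨(d + (dn A B).natAbs).toNat, by omega⟩
    have key := h i (by omega) j (by omega)
    unfold Tp at key
    rw [hi, hj, add_sub_cancel_right, add_sub_cancel_right] at key
    exact key ⟨Int.squarefree_natAbs.2 ha, Int.squarefree_natAbs.2 hd,
      Int.natAbs_dvd_natAbs.2 han, Int.natAbs_dvd_natAbs.2 hdn, hp⟩
  · intro h i _ j _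
    unfold Tp
    rintro ⟨h1, h2, h3, h4, h5⟩
    exact h _ _ (Int.squarefree_natAbs.1 h1) (Int.squarefree_natAbs.1 h2)
      (Int.natAbs_dvd_natAbs.1 h3) (Int.natAbs_dvd_natAbs.1 h4) h5

/-- the point `(a / c, b / c)` -/
def pt (t : ℤ × ℤ × ℤ) : ℚ × ℚ := ((t.1 : ℚ) / t.2.2, (t.2.1 : ℚ) / t.2.2)

lemma on_iff {e t : ℤ × ℤ × ℤ} (hc : t.2.2 ≠ 0) :
    On e t ↔ pt t ∈ Pts e.1 e.2.1 e.2.2 ∧ (pt t).2 ≠ 0 := by
  obtain ⟨e1, e2, e3⟩ := e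
  obtain ⟨a, b, c⟩ := t
  have hc : c ≠ 0 := hc
  have hc' : (c : ℚ) ≠ 0 := by exact_mod_cast hc
  show (¬ b = 0 ∧ ¬ c = 0 ∧ b * b * c = (a - e1 * c) * (a - e2 * c) * (a - e3 * c)) ↔
    ((b : ℚ) / c) ^ 2 = ((a : ℚ) / c - e1) * ((a : ℚ) / c - e2) * ((a : ℚ) / c - e3) ∧
      (b : ℚ) / c ≠ 0
  have h1 : ((b : ℚ) / c) ^ 2 = ((a : ℚ) / c - e1) * ((a : ℚ) / c - e2) * ((a : ℚ) / c - e3) ↔
      (b : ℚ) * b * c = (a - e1 * c) * (a - e2 * c) * (a - e3 * c) := by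
    have e : ((a : ℚ) / c - e1) * ((a : ℚ) / c - e2) * ((a : ℚ) / c - e3) =
        (a - e1 * c) * (a - e2 * c) * (a - e3 * c) / c ^ 3 := by field_simp
    have e' : ((b : ℚ) / c) ^ 2 = b * b * c / c ^ 3 := by field_simp
    rw [e, e', div_left_inj' (pow_ne_zero 3 hc')]
  have h2 : (b : ℚ) / c ≠ 0 ↔ b ≠ 0 := by
    rw [Ne, div_eq_zero_iff, not_or]
    constructor
    · rintro ⟨h, -⟩
      exact_mod_cast h
    · intro h
      exact ⟨by exact_mod_cast h, hc'⟩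
  rw [h1, h2]
  constructor
  · rintro ⟨g1, -, g3⟩
    exact ⟨by exact_mod_cast g3, g1⟩
  · rintro ⟨g1, g2⟩
    exact ⟨g2, hc, by exact_mod_cast g1⟩

lemma sq_key {a c a' c' e : ℤ} (hc : c ≠ 0) (hc' : c' ≠ 0) :
    Sq ((a - e * c) * (a' - e * c') * (c * c')) ↔
      IsSquare (((a : ℚ) / c - e) * ((a' : ℚ) / c' - e)) := by
  have h1 : (c : ℚ) ≠ 0 := by exact_mod_cast hc
  have h2 : (c' : ℚ) ≠ 0 := by exact_mod_cast hc'
  rw [sq_iff, ← Rat.isSquare_intCast_iff]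
  have e : (((a - e * c) * (a' - e * c') * (c * c') : ℤ) : ℚ) =
      (((a : ℚ) / c - e) * ((a' : ℚ) / c' - e)) * (((c : ℚ) * c') * ((c : ℚ) * c')) := by
    push_cast
    field_simp
  rw [e]
  constructor
  · rintro ⟨r, hr⟩
    refine ⟨r / (c * c'), ?_⟩
    rw [div_mul_div_comm, ← hr, mul_div_cancel_right₀]
    exact mul_ne_zero (mul_ne_zero h1 h2) (mul_ne_zero h1 h2)
  · intro h
    exact h.mul ⟨_, rfl⟩

lemma eq1_iff {e t s : ℤ × ℤ × ℤ} (ht : t.2.2 ≠ 0) (hs : s.2.2 ≠ 0) :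
    Eq1 e t s ↔ Eqv e.1 e.2.1 e.2.2 (pt t).1 (pt s).1 :=
  and_congr (sq_key ht hs) (and_congr (sq_key ht hs) (sq_key ht hs))

/-- **soundness of the first search** -/
theorem pInf_sound {L : List (List ℤ)} (h : PInf L) :
    ∃ e : ℤ × ℤ × ℤ, Dis e ∧ L = wei e ∧ (Pts e.1 e.2.1 e.2.2).Infinite := by
  obtain ⟨⟨e, l⟩, h1, h2, h3⟩ := h
  have h1 : Dis e := h1
  have h2 : L = wei e := h2
  have h3 : ∀ i < 5, (On e (gt l i) ∧ ∀ j < i, ¬ Eq1 e (gt l j) (gt l i)) := h3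
  have hc : ∀ i < 5, (gt l i).2.2 ≠ 0 := fun i hi => (h3 i hi).1.2.1
  refine ⟨e, h1, h2, ?_⟩
  refine infinite_of_five h1.1.1 h1.1.2.1 h1.1.2.2 (fun i => pt (gt l i))
    (fun i => (on_iff (hc i i.2)).1 (h3 i i.2).1) fun i j hij => ?_
  have := (h3 j j.2).2 i hij
  rwa [eq1_iff (hc i i.2) (hc j j.2)] at this

/-- **completeness of the first search** -/
theorem pInf_complete {e : ℤ × ℤ × ℤ} (h1 : Dis e) (h : (Pts e.1 e.2.1 e.2.2).Infinite) :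
    PInf (wei e) := by
  obtain ⟨q, hq, hne⟩ := exists_five h1.1.1 h1.1.2.1 h1.1.2.2 h
  obtain ⟨t, ht⟩ : ∃ t : Fin 5 → ℤ × ℤ × ℤ, ∀ i, t i = ((q i).1.num * ((q i).2.den : ℤ),
    (q i).2.num * ((q i).1.den : ℤ), ((q i).1.den : ℤ) * ((q i).2.den : ℤ)) := ⟨_, fun _ => rfl⟩
  have hc : ∀ i, (t i).2.2 ≠ 0 := by
    intro i
    rw [ht]
    exact mul_ne_zero (by exact_mod_cast (q i).1.den_nz) (by exact_mod_cast (q i).2.den_nz)
  have hpt : ∀ i, pt (t i) = q i := by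
    intro i
    have d1 : ((q i).1.den : ℚ) ≠ 0 := by exact_mod_cast (q i).1.den_nz
    have d2 : ((q i).2.den : ℚ) ≠ 0 := by exact_mod_cast (q i).2.den_nz
    unfold pt
    rw [ht]
    refine Prod.ext ?_ ?_
    · show (((q i).1.num * (q i).2.den : ℤ) : ℚ) / (((q i).1.den * (q i).2.den : ℤ) : ℚ) = (q i).1
      push_cast
      rw [mul_div_mul_right _ _ d2, Rat.num_div_den]
    · show (((q i).2.num * (q i).1.den : ℤ) : ℚ) / (((q i).1.den * (q i).2.den : ℤ) : ℚ) = (q i).2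
      push_cast
      rw [mul_comm ((q i).1.den : ℚ), mul_div_mul_right _ _ d1, Rat.num_div_den]
  have hg : ∀ i : Fin 5, gt (List.ofFn t) i = t i := by
    intro i
    unfold gt
    rw [List.getElem?_ofFn, dif_pos i.2]
    rfl
  refine ⟨⟨e, List.ofFn t⟩, h1, rfl, fun i hi => ⟨?_, fun j hj => ?_⟩⟩
  · show On e (gt (List.ofFn t) i)
    have := hg ⟨i, hi⟩
    rw [show gt (List.ofFn t) i = t ⟨i, hi⟩ from this, on_iff (hc _), hpt]
    exact hq _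
  · show ¬ Eq1 e (gt (List.ofFn t) j) (gt (List.ofFn t) i)
    have hj5 : j < 5 := by omega
    rw [show gt (List.ofFn t) i = t ⟨i, hi⟩ from hg ⟨i, hi⟩,
      show gt (List.ofFn t) j = t ⟨j, hj5⟩ from hg ⟨j, hj5⟩, eq1_iff (hc _) (hc _), hpt, hpt]
    refine hne _ _ fun h0 => ?_
    have := congrArg Fin.val h0
    simp only at this
    omega

/-- **soundness of the second search** -/
theorem pFin_sound {L : List (List ℤ)} (h : PFin L) :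
    ∃ e : ℤ × ℤ × ℤ, Dis e ∧ L = wei e ∧ (Pts e.1 e.2.1 e.2.2).Finite ∧
      ∃ (m : ℕ) (l : List (ℤ × ℤ)), Few (e.2.1 - e.1) (e.2.2 - e.1) m l := by
  obtain ⟨⟨e, m, l⟩, h1, h2, h3⟩ := h
  have h1 : Dis e := h1
  have h2 : L = wei e := h2
  have h3 : FewC (e.2.1 - e.1) (e.2.2 - e.1) m l := h3
  obtain ⟨⟨h12, h13, h23⟩, hs⟩ := h1
  rw [fewC_iff (sub_ne_zero.2 (Ne.symm h12)) (sub_ne_zero.2 (Ne.symm h13))
    (fun h0 => h23 (by linarith))] at h3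
  exact ⟨e, ⟨⟨h12, h13, h23⟩, hs⟩, h2, few_sound h12 h13 h23 hs h3, m, l, h3⟩

/-- **completeness of the second search** -/
theorem pFin_complete {A B : ℤ} {e : ℤ × ℤ × ℤ} (h1 : Dis e)
    (hroot : ∀ x : ℤ, x ^ 3 + A * x + B = (x - e.1) * (x - e.2.1) * (x - e.2.2))
    (hfin : (SelR A B).Finite) (hc : (SelR A B).ncard ≤ 4) : PFin (wei e) := by
  obtain ⟨⟨h12, h13, h23⟩, hs⟩ := h1
  obtain ⟨m, l, h⟩ := few_complete h12 h13 h23 hroot hfin hc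
  refine ⟨⟨e, m, l⟩, ⟨⟨h12, h13, h23⟩, hs⟩, rfl, ?_⟩
  show FewC (e.2.1 - e.1) (e.2.2 - e.1) m l
  rw [fewC_iff (sub_ne_zero.2 (Ne.symm h12)) (sub_ne_zero.2 (Ne.symm h13))
    (fun h0 => h23 (by linarith))]
  exact h

/-- the coefficients -/
theorem wei_eq {A B : ℤ} {e : ℤ × ℤ × ℤ} (h : weier A B = wei e) :
    A = e.1 * e.2.1 + e.1 * e.2.2 + e.2.1 * e.2.2 ∧ B = -(e.1 * e.2.1 * e.2.2) := by
  unfold wei weier at h
  simp only [List.cons.injEq, neg_inj, and_true] at h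
  obtain ⟨h1, h2⟩ := h
  exact ⟨h2, h1⟩

theorem root_of {A B : ℤ} {e : ℤ × ℤ × ℤ} (h1 : Dis e) (h : weier A B = wei e) :
    ∀ x : ℤ, x ^ 3 + A * x + B = (x - e.1) * (x - e.2.1) * (x - e.2.2) := by
  obtain ⟨hA, hB⟩ := wei_eq h
  intro x
  rw [hA, hB]
  linear_combination x ^ 2 * h1.2

end Pool.Agent.R395.FT
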