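import Pool.Agent.TH841.AL.Stm
import Pool.Agent.W960.GA.Comp
import Pool.Agent.Helper566.FD.J7

/-!
# The two searches are recursively enumerable

(The lemmas on `ModSol`, `RealSol` are copied from `TH841/AL/Comp.lean`.)
-/

set_option autoImplicit false
set_option linter.unusedSectionVars false

namespace Pool.Agent.R395.FT

open Pool.Agent.Helper446 Pool.Agent.W960.GA
open Pool.Agent.TH841.AL (RealSol ModSol)

/-- the polynomial `y² - (x³ + A x + B)` -/
def weier (A B : ℤ) : List (List ℤ) := [[-B, 0, 1], [-A], [], [-1]]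

/-- the polynomial `y² - (x - e₁)(x - e₂)(x - e₃)`, `e₁ + e₂ + e₃ = 0` -/
def wei (e : ℤ × ℤ × ℤ) : List (List ℤ) :=
  weier (e.1 * e.2.1 + e.1 * e.2.2 + e.2.1 * e.2.2) (-(e.1 * e.2.1 * e.2.2))

/-- distinct roots with sum zero -/
def Dis (e : ℤ × ℤ × ℤ) : Prop :=
  (¬ e.1 = e.2.1 ∧ ¬ e.1 = e.2.2 ∧ ¬ e.2.1 = e.2.2) ∧ e.1 + e.2.1 + e.2.2 = 0

/-- `n` is a square -/
def Sq (n : ℤ) : Prop := ∃ r < n.natAbs + 1, (r : ℤ) * r = n

theorem sq_iff (n : ℤ) : Sq n ↔ IsSquare n := by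
  constructor
  · rintro ⟨r, -, h⟩
    exact ⟨r, h.symm⟩
  · rintro ⟨r, h⟩
    refine ⟨r.natAbs, ?_, by rw [h, Int.natAbs_mul_self']⟩
    rw [h, Int.natAbs_mul]
    have := Nat.le_mul_self r.natAbs
    omega

/-- the point `(a / c, b / c)` is on the curve, `b ≠ 0` -/
def On (e t : ℤ × ℤ × ℤ) : Prop := ¬ t.2.1 = 0 ∧ ¬ t.2.2 = 0 ∧
  t.2.1 * t.2.1 * t.2.2 = (t.1 - e.1 * t.2.2) * (t.1 - e.2.1 * t.2.2) * (t.1 - e.2.2 * t.2.2)

/-- the points `(a / c, b / c)`, `(a' / c', b' / c')` have the same square classes -/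
def Eq1 (e t s : ℤ × ℤ × ℤ) : Prop :=
  Sq ((t.1 - e.1 * t.2.2) * (s.1 - e.1 * s.2.2) * (t.2.2 * s.2.2)) ∧
  Sq ((t.1 - e.2.1 * t.2.2) * (s.1 - e.2.1 * s.2.2) * (t.2.2 * s.2.2)) ∧
  Sq ((t.1 - e.2.2 * t.2.2) * (s.1 - e.2.2 * s.2.2) * (t.2.2 * s.2.2))

/-- element of a list -/
def gt (l : List (ℤ × ℤ × ℤ)) (i : ℕ) : ℤ × ℤ × ℤ := (l[i]?).getD (0, 0, 0)

/-- there is a proof that the curve has infinitely many points -/
def PInf (L : List (List ℤ)) : Prop := ∃ w : (ℤ × ℤ × ℤ) × List (ℤ × ℤ × ℤ),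
  Dis w.1 ∧ L = wei w.1 ∧ ∀ i < 5, (On w.1 (gt w.2 i) ∧ ∀ j < i, ¬ Eq1 w.1 (gt w.2 j) (gt w.2 i))

/-- the number `2 A B (A - B)` -/
def dn (A B : ℤ) : ℤ := 2 * A * B * (A - B)

/-- the covering passes the finite test: the real place and the powers `p ^ k`, `p, k ≤ m` -/
def Pass (A B a d : ℤ) (m : ℕ) : Prop := RealSol A B a d ∧
  ∀ p < m + 1, (p.Prime → ∀ k < m + 1, ModSol A B a d (p ^ k))

/-- one pair in the test -/
def Tp (A B : ℤ) (m : ℕ) (l : List (ℤ × ℤ)) (i j : ℕ) : Prop :=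
  (Squarefree ((i : ℤ) - (dn A B).natAbs).natAbs ∧ Squarefree ((j : ℤ) - (dn A B).natAbs).natAbs ∧
    ((i : ℤ) - (dn A B).natAbs).natAbs ∣ (dn A B).natAbs ∧
    ((j : ℤ) - (dn A B).natAbs).natAbs ∣ (dn A B).natAbs ∧
    Pass A B ((i : ℤ) - (dn A B).natAbs) ((j : ℤ) - (dn A B).natAbs) m) →
  ((i : ℤ) - (dn A B).natAbs, (j : ℤ) - (dn A B).natAbs) ∈ l

/-- the finite test -/
def FewC (A B : ℤ) (m : ℕ) (l : List (ℤ × ℤ)) : Prop := l.length ≤ 4 ∧
  ∀ i < 2 * (dn A B).natAbs + 1, ∀ j < 2 * (dn A B).natAbs + 1, Tp A B m l i j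

/-- there is a proof that the curve has finitely many points -/
def PFin (L : List (List ℤ)) : Prop := ∃ w : (ℤ × ℤ × ℤ) × ℕ × List (ℤ × ℤ),
  Dis w.1 ∧ L = wei w.1 ∧ FewC (w.1.2.1 - w.1.1) (w.1.2.2 - w.1.1) w.2.1 w.2.2

section

variable {α : Type} [Primcodable α]

@[local fun_prop] theorem ciadd {f g : α → ℤ} (hf : Computable f) (hg : Computable g) :
    Computable (fun x => f x + g x) :=
  Pool.Agent.Helper566.FD.J7.prim_int_add.to_comp.comp hf hg

@[local fun_prop] theorem cisub {f g : α → ℤ} (hf : Computable f) (hg : Computable g) :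
    Computable (fun x => f x - g x) :=
  Pool.Agent.Helper566.FD.J7.prim_int_sub.to_comp.comp hf hg

@[local fun_prop] theorem cimul {f g : α → ℤ} (hf : Computable f) (hg : Computable g) :
    Computable (fun x => f x * g x) :=
  Pool.Agent.Helper566.FD.J7.prim_int_mul.to_comp.comp hf hg

@[local fun_prop] theorem cineg {f : α → ℤ} (hf : Computable f) :
    Computable (fun x => - f x) :=
  Pool.Agent.Helper566.FD.J7.prim_int_neg.to_comp.comp hf

@[local fun_prop] theorem cicast {f : α → ℕ} (hf : Computable f) :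
    Computable (fun x => (f x : ℤ)) :=
  Pool.Agent.Helper566.FD.J7.prim_natCast.to_comp.comp hf

@[local fun_prop] theorem citoNat {f : α → ℤ} (hf : Computable f) :
    Computable (fun x => (f x).toNat) :=
  Pool.Agent.Helper566.FD.J7.prim_toNat.to_comp.comp hf

@[local fun_prop] theorem cinatAbs {f : α → ℤ} (hf : Computable f) :
    Computable (fun x => (f x).natAbs) := by
  have h : Computable (fun x => (f x).toNat + (- f x).toNat) := by fun_prop
  refine h.of_eq fun x => ?_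
  omega

attribute [local fun_prop] cmod cpow

theorem cp_ile {f g : α → ℤ} (hf : Computable f) (hg : Computable g) :
    ComputablePred fun x => f x ≤ g x := by
  refine cp_of_iff (RE.cp_eq (f := fun x => (f x - g x).toNat) (g := fun _ => 0) (by fun_prop)
    (by fun_prop)) fun x => ?_
  omega

theorem cp_dvd {f g : α → ℕ} (hf : Computable f) (hg : Computable g) :
    ComputablePred fun x => f x ∣ g x := by
  refine cp_of_iff (RE.cp_eq (f := fun x => g x % f x) (g := fun _ => 0) (by fun_prop)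
    (by fun_prop)) fun x => ?_
  exact Nat.dvd_iff_mod_eq_zero

theorem cp_idvd {f : α → ℕ} {g : α → ℤ} (hf : Computable f) (hg : Computable g) :
    ComputablePred fun x => ((f x : ℕ) : ℤ) ∣ g x := by
  refine cp_of_iff (cp_dvd hf (cinatAbs hg)) fun x => ?_
  exact Int.natCast_dvd

theorem cp_or {p q : α → Prop} (hp : ComputablePred p) (hq : ComputablePred q) :
    ComputablePred fun a => p a ∨ q a :=
  cp_of_iff (cp_not (cp_and (cp_not hp) (cp_not hq))) fun a => by tauto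

theorem cp_sqf {f : α → ℕ} (hf : Computable f) : ComputablePred fun x => Squarefree (f x) := by
  have h : ComputablePred fun x => ∀ k < f x + 1, (k * k ∣ f x → k = 1) := by
    refine cp_all_lt (p := fun x k => (k * k ∣ f x → k = 1)) ?_ (by fun_prop)
    exact cp_imp (cp_dvd (by fun_prop) (by fun_prop)) (RE.cp_eq (by fun_prop) (by fun_prop))
  refine cp_of_iff h fun x => ?_
  constructor
  · intro hs k _ hk
    exact Nat.isUnit_iff.1 (hs k hk)
  · intro hs
    by_cases h0 : f x = 0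
    · have := hs 0 (by omega) (by simp [h0])
      omega
    · intro k hk
      have h1 : k ≤ f x := (Nat.le_mul_self k).trans (Nat.le_of_dvd (Nat.pos_of_ne_zero h0) hk)
      exact Nat.isUnit_iff.2 (hs k (by omega) hk)

theorem cp_prime {f : α → ℕ} (hf : Computable f) : ComputablePred fun x => (f x).Prime := by
  have h : ComputablePred fun x => 2 ≤ f x ∧ ∀ k < f x, (k ∣ f x → k = 1) := by
    refine cp_and (RE.cp_le (by fun_prop) (by fun_prop)) ?_
    refine cp_all_lt (p := fun x k => (k ∣ f x → k = 1)) ?_ (by fun_prop)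
    exact cp_imp (cp_dvd (by fun_prop) (by fun_prop)) (RE.cp_eq (by fun_prop) (by fun_prop))
  exact cp_of_iff h fun x => Nat.prime_def_lt

/-! ### The test modulo `m` -/

/-- the matrix of the test -/
def Q0 (A B b d : ℤ) (m M e x y : ℕ) : Prop :=
  (∀ k < m + 1, (k ∣ M ∧ k ∣ e ∧ k ∣ x ∧ k ∣ y ∧ k ∣ m) → k = 1) ∧
  (m : ℤ) ∣ b * (M * M) - A * (e * e) - d * (x * x) ∧
  (m : ℤ) ∣ b * (M * M) - B * (e * e) - b * d * (y * y)

theorem cp_Q0 {A B b d : α → ℤ} {m M e x y : α → ℕ} (hA : Computable A) (hB : Computable B)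
    (hb : Computable b) (hd : Computable d) (hm : Computable m) (hM : Computable M)
    (he : Computable e) (hx : Computable x) (hy : Computable y) :
    ComputablePred fun a => Q0 (A a) (B a) (b a) (d a) (m a) (M a) (e a) (x a) (y a) := by
  unfold Q0
  refine cp_and ?_ (cp_and (cp_idvd (by fun_prop) (by fun_prop))
    (cp_idvd (by fun_prop) (by fun_prop)))
  refine cp_all_lt (p := fun a k => (k ∣ M a ∧ k ∣ e a ∧ k ∣ x a ∧ k ∣ y a ∧ k ∣ m a) → k = 1) ?_
    (by fun_prop)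
  exact cp_imp (cp_and (cp_dvd (by fun_prop) (by fun_prop)) (cp_and (cp_dvd (by fun_prop)
    (by fun_prop)) (cp_and (cp_dvd (by fun_prop) (by fun_prop)) (cp_and (cp_dvd (by fun_prop)
    (by fun_prop)) (cp_dvd (by fun_prop) (by fun_prop)))))) (RE.cp_eq (by fun_prop) (by fun_prop))

theorem cp_Q1 {A B b d : α → ℤ} {m M e x : α → ℕ} (hA : Computable A) (hB : Computable B)
    (hb : Computable b) (hd : Computable d) (hm : Computable m) (hM : Computable M)
    (he : Computable e) (hx : Computable x) :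
    ComputablePred fun a => ∃ y < m a,
      Q0 (A a) (B a) (b a) (d a) (m a) (M a) (e a) (x a) y := by
  refine cp_ex_lt (p := fun a y => Q0 (A a) (B a) (b a) (d a) (m a) (M a) (e a) (x a) y) ?_
    hm
  apply cp_Q0 <;> fun_prop

theorem cp_Q2 {A B b d : α → ℤ} {m M e : α → ℕ} (hA : Computable A) (hB : Computable B)
    (hb : Computable b) (hd : Computable d) (hm : Computable m) (hM : Computable M)
    (he : Computable e) :
    ComputablePred fun a => ∃ x < m a, ∃ y < m a,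
      Q0 (A a) (B a) (b a) (d a) (m a) (M a) (e a) x y := by
  refine cp_ex_lt (p := fun a x => ∃ y < m a, Q0 (A a) (B a) (b a) (d a) (m a) (M a) (e a) x y) ?_
    hm
  apply cp_Q1 <;> fun_prop

theorem cp_Q3 {A B b d : α → ℤ} {m M : α → ℕ} (hA : Computable A) (hB : Computable B)
    (hb : Computable b) (hd : Computable d) (hm : Computable m) (hM : Computable M) :
    ComputablePred fun a => ∃ e < m a, ∃ x < m a, ∃ y < m a,
      Q0 (A a) (B a) (b a) (d a) (m a) (M a) e x y := by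
  refine cp_ex_lt (p := fun a e => ∃ x < m a, ∃ y < m a,
    Q0 (A a) (B a) (b a) (d a) (m a) (M a) e x y) ?_ hm
  apply cp_Q2 <;> fun_prop

theorem cp_Q4 {A B b d : α → ℤ} {m : α → ℕ} (hA : Computable A) (hB : Computable B)
    (hb : Computable b) (hd : Computable d) (hm : Computable m) :
    ComputablePred fun a => ∃ M < m a, ∃ e < m a, ∃ x < m a, ∃ y < m a,
      Q0 (A a) (B a) (b a) (d a) (m a) M e x y := by
  refine cp_ex_lt (p := fun a M => ∃ e < m a, ∃ x < m a, ∃ y < m a,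
    Q0 (A a) (B a) (b a) (d a) (m a) M e x y) ?_ hm
  apply cp_Q3 <;> fun_prop

lemma gcd_iff {M e x y m : ℕ} (hm : 0 < m) :
    Nat.gcd (Nat.gcd M e) (Nat.gcd (Nat.gcd x y) m) = 1 ↔
      ∀ k < m + 1, (k ∣ M ∧ k ∣ e ∧ k ∣ x ∧ k ∣ y ∧ k ∣ m) → k = 1 := by
  constructor
  · rintro h k _ ⟨h1, h2, h3, h4, h5⟩
    have h6 : k ∣ Nat.gcd (Nat.gcd M e) (Nat.gcd (Nat.gcd x y) m) :=
      Nat.dvd_gcd (Nat.dvd_gcd h1 h2) (Nat.dvd_gcd (Nat.dvd_gcd h3 h4) h5)
    rw [h] at h6
    exact Nat.dvd_one.1 h6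
  · intro h
    set g := Nat.gcd (Nat.gcd M e) (Nat.gcd (Nat.gcd x y) m) with hg
    have h1 : g ∣ Nat.gcd M e := Nat.gcd_dvd_left _ _
    have h2 : g ∣ Nat.gcd (Nat.gcd x y) m := Nat.gcd_dvd_right _ _
    have h3 : g ∣ m := h2.trans (Nat.gcd_dvd_right _ _)
    have h4 : g ∣ Nat.gcd x y := h2.trans (Nat.gcd_dvd_left _ _)
    exact h g (by have := Nat.le_of_dvd hm h3; omega) ⟨h1.trans (Nat.gcd_dvd_left _ _),
      h1.trans (Nat.gcd_dvd_right _ _), h4.trans (Nat.gcd_dvd_left _ _),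
      h4.trans (Nat.gcd_dvd_right _ _), h3⟩

theorem cp_modSol {A B b d : α → ℤ} {m : α → ℕ} (hA : Computable A) (hB : Computable B)
    (hb : Computable b) (hd : Computable d) (hm : Computable m) :
    ComputablePred fun a => ModSol (A a) (B a) (b a) (d a) (m a) := by
  refine cp_of_iff (cp_Q4 hA hB hb hd hm) fun a => ?_
  unfold ModSol Q0
  constructor
  · rintro ⟨M, e, x, y, h1, h2, h3, h4, h5, h6, h7⟩
    refine ⟨M, h1, e, h2, x, h3, y, h4, (gcd_iff (by omega)).1 h5, ?_, ?_⟩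
    · have e1 : b a * ((M : ℤ) * M) - A a * (e * e) - d a * (x * x) =
        b a * (M : ℤ) ^ 2 - A a * e ^ 2 - d a * x ^ 2 := by ring
      rw [e1]
      exact h6
    · have e1 : b a * ((M : ℤ) * M) - B a * (e * e) - b a * d a * (y * y) =
        b a * (M : ℤ) ^ 2 - B a * e ^ 2 - b a * d a * y ^ 2 := by ring
      rw [e1]
      exact h7
  · rintro ⟨M, h1, e, h2, x, h3, y, h4, h5, h6, h7⟩
    refine ⟨M, e, x, y, h1, h2, h3, h4, (gcd_iff (by omega)).2 h5, ?_, ?_⟩
    · have e1 : b a * ((M : ℤ) * M) - A a * (e * e) - d a * (x * x) =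
        b a * (M : ℤ) ^ 2 - A a * e ^ 2 - d a * x ^ 2 := by ring
      rw [← e1]
      exact h6
    · have e1 : b a * ((M : ℤ) * M) - B a * (e * e) - b a * d a * (y * y) =
        b a * (M : ℤ) ^ 2 - B a * e ^ 2 - b a * d a * y ^ 2 := by ring
      rw [← e1]
      exact h7

/-! ### The real test -/

/-- the matrix of the real test -/
def R0 (A B b d : ℤ) (s r : ℕ) : Prop :=
  (¬ s = 0 ∨ ¬ r = 0) ∧ 0 ≤ d * (b * s - A * r) ∧ 0 ≤ b * d * (b * s - B * r)

theorem cp_R0 {A B b d : α → ℤ} {s r : α → ℕ} (hA : Computable A) (hB : Computable B)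
    (hb : Computable b) (hd : Computable d) (hs : Computable s) (hr : Computable r) :
    ComputablePred fun a => R0 (A a) (B a) (b a) (d a) (s a) (r a) := by
  unfold R0
  refine cp_and (cp_or (cp_not (RE.cp_eq hs (by fun_prop))) (cp_not (RE.cp_eq hr (by fun_prop))))
    (cp_and (cp_ile (by fun_prop) (by fun_prop)) (cp_ile (by fun_prop) (by fun_prop)))

theorem cp_R1 {A B b d : α → ℤ} {s : α → ℕ} (hA : Computable A) (hB : Computable B)
    (hb : Computable b) (hd : Computable d) (hs : Computable s) :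
    ComputablePred fun a => ∃ r < (b a).natAbs + 2, R0 (A a) (B a) (b a) (d a) (s a) r := by
  refine cp_ex_lt (p := fun a r => R0 (A a) (B a) (b a) (d a) (s a) r) ?_ (by fun_prop)
  apply cp_R0 <;> fun_prop

theorem cp_realSol {A B b d : α → ℤ} (hA : Computable A) (hB : Computable B)
    (hb : Computable b) (hd : Computable d) :
    ComputablePred fun a => RealSol (A a) (B a) (b a) (d a) := by
  have h : ComputablePred fun a => ∃ s < (A a).natAbs + (B a).natAbs + 2,
      ∃ r < (b a).natAbs + 2, R0 (A a) (B a) (b a) (d a) s r := by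
    refine cp_ex_lt (p := fun a s => ∃ r < (b a).natAbs + 2, R0 (A a) (B a) (b a) (d a) s r) ?_
      (by fun_prop)
    apply cp_R1 <;> fun_prop
  refine cp_of_iff h fun a => ?_
  unfold RealSol R0
  constructor
  · rintro ⟨s, r, h1, h2, h3, h4, h5⟩
    exact ⟨s, by omega, r, by omega, h3, h4, h5⟩
  · rintro ⟨s, h1, r, h2, h3, h4, h5⟩
    exact ⟨s, r, by omega, by omega, h3, h4, h5⟩

theorem cp_Pass {A B b d : α → ℤ} {m : α → ℕ} (hA : Computable A) (hB : Computable B)
    (hb : Computable b) (hd : Computable d) (hm : Computable m) :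
    ComputablePred fun a => Pass (A a) (B a) (b a) (d a) (m a) := by
  unfold Pass
  refine cp_and (cp_realSol hA hB hb hd) ?_
  refine cp_all_lt (p := fun a p => (p.Prime → ∀ k < m a + 1,
    ModSol (A a) (B a) (b a) (d a) (p ^ k))) ?_ (by fun_prop)
  refine cp_imp (cp_prime (by fun_prop)) ?_
  refine cp_all_lt (p := fun (x : α × ℕ) k => ModSol (A x.1) (B x.1) (b x.1) (d x.1) (x.2 ^ k)) ?_
    (by fun_prop)
  apply cp_modSol <;> fun_prop

/-! ### The two searches -/

@[local fun_prop] theorem cwei {f : α → ℤ × ℤ × ℤ} (hf : Computable f) :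
    Computable (fun x => wei (f x)) := by
  unfold wei weier
  refine Computable.list_cons.comp (Computable.list_cons.comp (by fun_prop)
    (Computable.const _)) (Computable.list_cons.comp (Computable.list_cons.comp (by fun_prop)
    (Computable.const _)) (Computable.const _))

theorem cp_Dis {f : α → ℤ × ℤ × ℤ} (hf : Computable f) :
    ComputablePred fun x => Dis (f x) := by
  unfold Dis
  exact cp_and (cp_and (cp_not (RE.cp_eq (by fun_prop) (by fun_prop))) (cp_and
    (cp_not (RE.cp_eq (by fun_prop) (by fun_prop)))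
    (cp_not (RE.cp_eq (by fun_prop) (by fun_prop))))) (RE.cp_eq (by fun_prop) (by fun_prop))

theorem cp_Sq {f : α → ℤ} (hf : Computable f) : ComputablePred fun x => Sq (f x) := by
  unfold Sq
  refine cp_ex_lt (p := fun x r => (r : ℤ) * r = f x) ?_ (by fun_prop)
  exact RE.cp_eq (by fun_prop) (by fun_prop)

theorem cp_On {f g : α → ℤ × ℤ × ℤ} (hf : Computable f) (hg : Computable g) :
    ComputablePred fun x => On (f x) (g x) := by
  unfold On
  exact cp_and (cp_not (RE.cp_eq (by fun_prop) (by fun_prop))) (cp_and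
    (cp_not (RE.cp_eq (by fun_prop) (by fun_prop))) (RE.cp_eq (by fun_prop) (by fun_prop)))

theorem cp_Eq1 {f g h : α → ℤ × ℤ × ℤ} (hf : Computable f) (hg : Computable g)
    (hh : Computable h) : ComputablePred fun x => Eq1 (f x) (g x) (h x) := by
  unfold Eq1
  exact cp_and (cp_Sq (by fun_prop)) (cp_and (cp_Sq (by fun_prop)) (cp_Sq (by fun_prop)))

@[local fun_prop] theorem cgt {f : α → List (ℤ × ℤ × ℤ)} {g : α → ℕ} (hf : Computable f)
    (hg : Computable g) : Computable (fun x => gt (f x) (g x)) := by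
  unfold gt
  have h : Computable fun a => (f a)[g a]? := by fun_prop
  exact Computable.option_getD h (Computable.const (0, 0, 0))

@[local fun_prop] theorem cdn {f g : α → ℤ} (hf : Computable f) (hg : Computable g) :
    Computable (fun x => dn (f x) (g x)) := by
  unfold dn
  fun_prop

theorem cp_Tp {A B : α → ℤ} {m : α → ℕ} {l : α → List (ℤ × ℤ)} {i j : α → ℕ} (hA : Computable A)
    (hB : Computable B) (hm : Computable m) (hl : Computable l) (hi : Computable i)
    (hj : Computable j) : ComputablePred fun x => Tp (A x) (B x) (m x) (l x) (i x) (j x) := by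
  unfold Tp
  refine cp_imp (cp_and (cp_sqf (by fun_prop)) (cp_and (cp_sqf (by fun_prop)) (cp_and
    (cp_dvd (by fun_prop) (by fun_prop)) (cp_and (cp_dvd (by fun_prop) (by fun_prop))
    (cp_Pass hA hB (by fun_prop) (by fun_prop) hm))))) (RE.cp_mem (by fun_prop) hl)

theorem cp_FewC {A B : α → ℤ} {m : α → ℕ} {l : α → List (ℤ × ℤ)} (hA : Computable A)
    (hB : Computable B) (hm : Computable m) (hl : Computable l) :
    ComputablePred fun x => FewC (A x) (B x) (m x) (l x) := by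
  unfold FewC
  refine cp_and (RE.cp_le (by fun_prop) (by fun_prop)) ?_
  refine cp_all_lt (p := fun x i => ∀ j < 2 * (dn (A x) (B x)).natAbs + 1,
    Tp (A x) (B x) (m x) (l x) i j) ?_ (by fun_prop)
  refine cp_all_lt (p := fun (x : α × ℕ) j => Tp (A x.1) (B x.1) (m x.1) (l x.1) x.2 j) ?_
    (by fun_prop)
  apply cp_Tp <;> fun_prop

theorem re_PInf : REPred PInf := by
  unfold PInf
  refine RE.ex (p := fun (L : List (List ℤ)) (w : (ℤ × ℤ × ℤ) × List (ℤ × ℤ × ℤ)) =>
    Dis w.1 ∧ L = wei w.1 ∧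
      ∀ i < 5, (On w.1 (gt w.2 i) ∧ ∀ j < i, ¬ Eq1 w.1 (gt w.2 j) (gt w.2 i))) ?_
  refine RE.of_comput (cp_and (cp_Dis (by fun_prop)) (cp_and
    (RE.cp_eq (by fun_prop) (by fun_prop)) ?_))
  refine cp_all_lt (p := fun (x : List (List ℤ) × ((ℤ × ℤ × ℤ) × List (ℤ × ℤ × ℤ))) i =>
    (On x.2.1 (gt x.2.2 i) ∧ ∀ j < i, ¬ Eq1 x.2.1 (gt x.2.2 j) (gt x.2.2 i))) ?_ (by fun_prop)
  refine cp_and (cp_On (by fun_prop) (by fun_prop)) ?_
  refine cp_all_lt (p := fun (x : (List (List ℤ) × ((ℤ × ℤ × ℤ) × List (ℤ × ℤ × ℤ))) × ℕ) j =>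
    ¬ Eq1 x.1.2.1 (gt x.1.2.2 j) (gt x.1.2.2 x.2)) ?_ (by fun_prop)
  exact cp_not (cp_Eq1 (by fun_prop) (by fun_prop) (by fun_prop))

theorem re_PFin : REPred PFin := by
  unfold PFin
  refine RE.ex (p := fun (L : List (List ℤ)) (w : (ℤ × ℤ × ℤ) × ℕ × List (ℤ × ℤ)) =>
    Dis w.1 ∧ L = wei w.1 ∧ FewC (w.1.2.1 - w.1.1) (w.1.2.2 - w.1.1) w.2.1 w.2.2) ?_
  exact RE.of_comput (cp_and (cp_Dis (by fun_prop)) (cp_and
    (RE.cp_eq (by fun_prop) (by fun_prop))
    (cp_FewC (by fun_prop) (by fun_prop) (by fun_prop) (by fun_prop))))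

end

/-- the partial algorithm -/
theorem exists_alg : ∃ φ : List (List ℤ) →. Bool, Partrec φ ∧
    (∀ L, (φ L).Dom ↔ PInf L ∨ PFin L) ∧
    ∀ L, ∀ r ∈ φ L, (r = true ∧ PInf L) ∨ (r = false ∧ PFin L) := by
  have hr : REPred fun x : List (List ℤ) × Bool =>
      (x.2 = true ∧ PInf x.1) ∨ (x.2 = false ∧ PFin x.1) := by
    refine RE.or (RE.and (RE.eq (by fun_prop) (by fun_prop)) (RE.comp re_PInf (by fun_prop)))
      (RE.and (RE.eq (by fun_prop) (by fun_prop)) (RE.comp re_PFin (by fun_prop)))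
  obtain ⟨f, hf, h1, h2⟩ := RE.uniformize
    (r := fun (L : List (List ℤ)) (b : Bool) => (b = true ∧ PInf L) ∨ (b = false ∧ PFin L)) hr
  refine ⟨f, hf, fun L => ?_, h2⟩
  rw [h1 L]
  constructor
  · rintro ⟨b, ⟨-, h⟩ | ⟨-, h⟩⟩
    · exact Or.inl h
    · exact Or.inr h
  · rintro (h | h)
    · exact ⟨true, Or.inl ⟨rfl, h⟩⟩
    · exact ⟨false, Or.inr ⟨rfl, h⟩⟩

end Pool.Agent.R395.FT
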