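import Pool.Agent.R395.FT.Sq
import Pool.Agent.H437R2.Man.MWWeak

/-!
# Finiteness of `E(ℚ)` and the number of square classes of the rational points

`E : y² = (x - e₁)(x - e₂)(x - e₃)` with distinct integers `eᵢ`. If the rational points with `y ≠ 0`
fall in at most four classes, then there are finitely many (`finite_of_cover`); if there are five
points in pairwise different classes, then there are infinitely many (`infinite_of_five`); if there
are infinitely many, then such five points exist (`exists_five`).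
(`index_double` and `rkb2` are copied from `Y155/RP/RK2.lean`.)
-/

set_option autoImplicit false
set_option linter.unusedSectionVars false

open WeierstrassCurve

namespace Pool.Agent.R395.FT

open Pool.Agent.H437R2.Man.MW

/-- the cokernel of doubling on a finite abelian group is as large as the kernel -/
lemma index_double (F : Type) [AddCommGroup F] [Finite F] :
    Nat.card (F ⧸ (nsmulAddMonoidHom (α := F) 2).range) =
      Nat.card (nsmulAddMonoidHom (α := F) 2).ker := by
  set f := nsmulAddMonoidHom (α := F) 2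
  have h1 := AddSubgroup.card_mul_index f.ker
  have h2 := AddSubgroup.card_mul_index f.range
  rw [AddSubgroup.index_ker] at h1
  rw [AddSubgroup.index_eq_card] at h2
  have h3 : 0 < Nat.card f.range := Nat.card_pos
  have h4 : Nat.card f.range * Nat.card (F ⧸ f.range) = Nat.card f.range * Nat.card f.ker := by
    rw [h2, ← h1, mul_comm]
  exact Nat.eq_of_mul_eq_mul_left h3 h4

/-- a finitely generated abelian group of rank `r` with at least four elements of order dividing
two, covered by `T + 2 G`, has `2 ^ (r + 2) ≤ |T|`. -/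
theorem rkb2 (G : Type) [AddCommGroup G] (hG : AddGroup.FG G) (T : Finset G)
    (hcov : ∀ g : G, ∃ t ∈ T, ∃ q, g = t + (q + q)) (F4 : Finset G) (h4 : 4 ≤ F4.card)
    (hF4 : ∀ g ∈ F4, g + g = 0) : 2 ^ (Module.finrank ℤ G + 2) ≤ T.card := by
  classical
  have : Module.Finite ℤ G := Module.Finite.iff_addGroup_fg.mpr hG
  let F := Submodule.torsion ℤ G
  let M := G ⧸ F
  have hr : Module.finrank ℤ M = Module.finrank ℤ G :=
    finrank_quotient_eq_of_le_torsion le_rfl
  rw [← hr]
  have : Module.Finite ℤ M := inferInstance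
  have : Module.Free ℤ M := inferInstance
  have hFf : Finite F := Module.finite_of_fg_torsion F (by
    intro x
    obtain ⟨⟨a, ha⟩, hx⟩ := Submodule.torsion_isTorsion (R := ℤ) (M := G) (x := x)
    exact ⟨⟨a, ha⟩, hx⟩)
  obtain ⟨σ, hσ⟩ := Module.projective_lifting_property F.mkQ (LinearMap.id : M →ₗ[ℤ] M)
    F.mkQ_surjective
  have hσ' : ∀ m : M, F.mkQ (σ m) = m := fun m => LinearMap.congr_fun hσ m
  -- the projection to the torsion subgroup
  let π : G → F := fun g => ⟨g - σ (F.mkQ g), by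
    rw [← Submodule.Quotient.mk_eq_zero]
    change F.mkQ (g - σ (F.mkQ g)) = 0
    rw [map_sub, hσ', sub_self]⟩
  have hπadd : ∀ g h, π (g + h) = π g + π h := by
    intro g h
    apply Subtype.ext
    simp only [π, map_add, Submodule.coe_add]
    abel
  let r := Module.finrank ℤ M
  let b : Module.Basis (Fin r) ℤ M := Module.finBasis ℤ M
  let φ : G → (Fin r → ZMod 2) := fun g i =>
    ((b.repr (F.mkQ g) i : ℤ) : ZMod 2)
  have hφadd : ∀ g h, φ (g + h) = φ g + φ h := by
    intro g h
    ext i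
    simp [φ]
  let D := (nsmulAddMonoidHom (α := F) 2).range
  let ψ : G → (Fin r → ZMod 2) × (F ⧸ D) := fun g => (φ g, QuotientAddGroup.mk (π g))
  have hψ : ∀ t q, ψ (t + (q + q)) = ψ t := by
    intro t q
    simp only [ψ]
    rw [hφadd, hφadd, hπadd, hπadd]
    congr 1
    · ext i
      have : φ q i + φ q i = 0 := CharTwo.add_self_eq_zero _
      simp [this]
    · symm
      rw [QuotientAddGroup.eq]
      refine ⟨π q, ?_⟩
      rw [nsmulAddMonoidHom_apply, two_nsmul]
      abel
  have hψsurj : Function.Surjective ψ := by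
    rintro ⟨v, c⟩
    obtain ⟨f, rfl⟩ := QuotientAddGroup.mk_surjective c
    let m : M := b.equivFun.symm (fun i => ((v i).val : ℤ))
    refine ⟨σ m + f, ?_⟩
    have h1 : F.mkQ (σ m + f) = m := by
      rw [map_add, hσ']
      have : F.mkQ (f : G) = 0 := by
        rw [Submodule.mkQ_apply, Submodule.Quotient.mk_eq_zero]
        exact f.2
      rw [this, add_zero]
    simp only [ψ]
    congr 1
    · ext i
      simp only [φ, h1, m]
      rw [← Module.Basis.equivFun_apply, LinearEquiv.apply_symm_apply]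
      simp
    · congr 1
      apply Subtype.ext
      simp only [π, h1]
      abel
  have hfin : Finite (F ⧸ D) := inferInstance
  have hcard : Nat.card ((Fin r → ZMod 2) × (F ⧸ D)) ≤ T.card := by
    have := Fintype.ofFinite (F ⧸ D)
    rw [Nat.card_eq_fintype_card, ← Finset.card_univ]
    refine Finset.card_le_card_of_surjOn ψ ?_
    intro v _
    obtain ⟨g, rfl⟩ := hψsurj v
    obtain ⟨t, ht, q, rfl⟩ := hcov g
    exact ⟨t, ht, (hψ t q).symm⟩
  refine le_trans ?_ hcard
  rw [Nat.card_prod, index_double F, pow_add]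
  apply Nat.mul_le_mul
  · rw [Nat.card_eq_fintype_card, Fintype.card_fun, ZMod.card, Fintype.card_fin]
  · -- the four elements
    have hmem : ∀ g ∈ F4, g ∈ F := by
      intro g hg
      refine ⟨⟨2, by simp⟩, ?_⟩
      change (2 : ℤ) • g = 0
      rw [two_smul]
      exact hF4 g hg
    let e : F4 → (nsmulAddMonoidHom (α := F) 2).ker := fun g => ⟨⟨g, hmem g g.2⟩, by
      rw [AddMonoidHom.mem_ker, nsmulAddMonoidHom_apply, two_nsmul]
      apply Subtype.ext
      exact hF4 g g.2⟩
    have he : Function.Injective e := by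
      intro g h hgh
      apply Subtype.ext
      have := congrArg (fun z : (nsmulAddMonoidHom (α := F) 2).ker => ((z : F) : G)) hgh
      exact this
    have := Nat.card_le_card_of_injective e he
    rw [Nat.card_eq_fintype_card, Fintype.card_coe] at this
    calc 2 ^ 2 = 4 := by norm_num
      _ ≤ F4.card := h4
      _ ≤ _ := this

lemma finite_of_rk {A : Type} [AddCommGroup A] (hfg : AddGroup.FG A)
    (h : Module.finrank ℤ A = 0) : Finite A := by
  have h1 : Module.Finite ℤ A := Module.Finite.iff_addGroup_fg.2 hfg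
  exact Module.finite_of_fg_torsion _ (Module.finrank_eq_zero_iff_isTorsion.1 h)

/-- the rational points -/
def Pts (e1 e2 e3 : ℤ) : Set (ℚ × ℚ) :=
  {p | p.2 ^ 2 = (p.1 - e1) * (p.1 - e2) * (p.1 - e3)}

/-- the same square classes -/
def Eqv (e1 e2 e3 : ℤ) (x x' : ℚ) : Prop :=
  IsSquare ((x - e1) * (x' - e1)) ∧ IsSquare ((x - e2) * (x' - e2)) ∧
    IsSquare ((x - e3) * (x' - e3))

/-- the curve -/
abbrev W (e1 e2 e3 : ℤ) : WeierstrassCurve ℚ := crv (-(e1 : ℚ)) (-(e2 : ℚ)) (-(e3 : ℚ))

section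

variable {e1 e2 e3 : ℤ}

lemma ns (h12 : e1 ≠ e2) (h13 : e1 ≠ e3) (h23 : e2 ≠ e3) {x y : ℚ} :
    (W e1 e2 e3).toAffine.Nonsingular x y ↔ (x, y) ∈ Pts e1 e2 e3 := by
  have q12 : -(e1 : ℚ) ≠ -(e2 : ℚ) := fun h => h12 (by exact_mod_cast neg_injective h)
  have q13 : -(e1 : ℚ) ≠ -(e3 : ℚ) := fun h => h13 (by exact_mod_cast neg_injective h)
  have q23 : -(e2 : ℚ) ≠ -(e3 : ℚ) := fun h => h23 (by exact_mod_cast neg_injective h)
  constructor
  · intro h
    have := crv_eqn.mp h.1
    show y ^ 2 = (x - e1) * (x - e2) * (x - e3)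
    linear_combination this
  · intro h
    have h : y ^ 2 = (x - e1) * (x - e2) * (x - e3) := h
    exact crv_nonsing q12 q13 q23 (by linear_combination h)

/-- **Few classes**: the set of the rational points is finite. -/
theorem finite_of_cover (h12 : e1 ≠ e2) (h13 : e1 ≠ e3) (h23 : e2 ≠ e3) (S : Finset (ℚ × ℚ))
    (hc : S.card ≤ 4) (hS : ∀ p ∈ S, p ∈ Pts e1 e2 e3 ∧ p.2 ≠ 0)
    (hcov : ∀ p ∈ Pts e1 e2 e3, p.2 ≠ 0 → ∃ q ∈ S, Eqv e1 e2 e3 p.1 q.1) :
    (Pts e1 e2 e3).Finite := by
  classical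
  have q12 : -(e1 : ℚ) ≠ -(e2 : ℚ) := fun h => h12 (by exact_mod_cast neg_injective h)
  have q13 : -(e1 : ℚ) ≠ -(e3 : ℚ) := fun h => h13 (by exact_mod_cast neg_injective h)
  have q23 : -(e2 : ℚ) ≠ -(e3 : ℚ) := fun h => h23 (by exact_mod_cast neg_injective h)
  have hfg := pt_fg q12 q13 q23
  have hrk : Module.finrank ℤ (W e1 e2 e3).toAffine.Point = 0 := by
    by_contra h0
    have hinf : ∃ P0 : (W e1 e2 e3).toAffine.Point, ∀ n : ℤ, n ≠ 0 → n • P0 ≠ 0 := by
      by_contra hcon
      push Not at hcon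
      apply h0
      have : Module.Finite ℤ (W e1 e2 e3).toAffine.Point := Module.Finite.iff_addGroup_fg.mpr hfg
      rw [Module.finrank_eq_zero_iff]
      intro P
      obtain ⟨n, h1, h2⟩ := hcon P
      exact ⟨n, h1, h2⟩
    obtain ⟨P0, hP0⟩ := hinf
    set T : Finset (W e1 e2 e3).toAffine.Point := S.image (fun p =>
      if hp : (W e1 e2 e3).toAffine.Nonsingular p.1 p.2 then Affine.Point.some p.1 p.2 hp else 0)
      with hT
    have hTc : T.card ≤ 4 := Finset.card_image_le.trans hc
    have hcov1 : ∀ (x y : ℚ) (hn : (W e1 e2 e3).toAffine.Nonsingular x y), y ≠ 0 →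
        ∃ t ∈ T, ∃ q : (W e1 e2 e3).toAffine.Point,
          (Affine.Point.some x y hn : (W e1 e2 e3).toAffine.Point) = t + (q + q) := by
      intro x y hn hy
      obtain ⟨⟨x', y'⟩, hq, h1, h2, h3⟩ := hcov (x, y) ((ns h12 h13 h23).1 hn) hy
      obtain ⟨hp', hy'⟩ := hS _ hq
      have hn' : (W e1 e2 e3).toAffine.Nonsingular x' y' := (ns h12 h13 h23).2 hp'
      refine ⟨Affine.Point.some x' y' hn', ?_, ?_⟩
      · rw [hT, Finset.mem_image]
        exact ⟨_, hq, by rw [dif_pos hn']⟩
      · have hxy : y ^ 2 = (x - e1) * (x - e2) * (x - e3) := (ns h12 h13 h23).1 hn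
        have hxy' : y' ^ 2 = (x' - e1) * (x' - e2) * (x' - e3) := hp'
        have key : ∀ e : ℚ, (x - e ≠ 0) → (x' - e ≠ 0) → IsSquare ((x - e) * (x' - e)) →
            ∃ r : ℚ, r ≠ 0 ∧ (x + -e) * (x' + -e) = r ^ 2 := by
          intro e a1 a2 ⟨r, hr⟩
          refine ⟨r, ?_, by rw [pow_two, ← hr]; ring⟩
          rintro rfl
          rw [mul_zero] at hr
          exact mul_ne_zero a1 a2 hr
        have nz : (x - e1 ≠ 0 ∧ x - e2 ≠ 0 ∧ x - e3 ≠ 0) := by
          refine ⟨?_, ?_, ?_⟩ <;> intro h0 <;> apply hy <;>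
            exact pow_eq_zero_iff (two_ne_zero) |>.1 (by rw [hxy, h0]; ring)
        have nz' : (x' - e1 ≠ 0 ∧ x' - e2 ≠ 0 ∧ x' - e3 ≠ 0) := by
          refine ⟨?_, ?_, ?_⟩ <;> intro h0 <;> apply hy' <;>
            exact pow_eq_zero_iff (two_ne_zero) |>.1 (by rw [hxy', h0]; ring)
        obtain ⟨r1, m1, hr1⟩ := key e1 nz.1 nz'.1 h1
        obtain ⟨r2, m2, hr2⟩ := key e2 nz.2.1 nz'.2.1 h2
        obtain ⟨r3, m3, hr3⟩ := key e3 nz.2.2 nz'.2.2 h3
        obtain ⟨Q, hQ⟩ := add_double (r1 := r1) (r2 := r2) (r3 := r3) q12 q13 q23 hn hn' m1 m2 m3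
          hr1 hr2 hr3
        refine ⟨Q - Affine.Point.some x' y' hn', ?_⟩
        have e3 : (Affine.Point.some x y hn : (W e1 e2 e3).toAffine.Point)
            = (Q + Q) - Affine.Point.some x' y' hn' := by
          rw [hQ]
          abel
        rw [e3]
        abel
    have htriv : ∀ g : (W e1 e2 e3).toAffine.Point,
        g + g = 0 ∨ ∃ t ∈ T, ∃ q : (W e1 e2 e3).toAffine.Point, g = t + (q + q) := by
      intro g
      rcases g with _ | ⟨x, y, hn⟩
      · left
        exact add_zero _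
      · by_cases hy : y = 0
        · left
          subst hy
          exact dbl_zero hn
        · right
          exact hcov1 x y hn hy
    have hcov' : ∀ g : (W e1 e2 e3).toAffine.Point, ∃ t ∈ T, ∃ q, g = t + (q + q) := by
      intro g
      rcases htriv g with h1 | h1
      · rcases htriv (g + (P0 + P0)) with h2 | ⟨t, ht, q, hq⟩
        · exfalso
          apply hP0 4 (by norm_num)
          have h3 : (4 : ℤ) • P0 = (g + (P0 + P0)) + (g + (P0 + P0)) - (g + g) := by
            abel
          rw [h3, h1, h2, sub_zero]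
        · refine ⟨t, ht, q - P0, ?_⟩
          have h3 : g = (g + (P0 + P0)) - (P0 + P0) := by abel
          rw [h3, hq]
          abel
      · exact h1
    have hT1 : (W e1 e2 e3).toAffine.Nonsingular (e1 : ℚ) 0 := by
      apply crv_nonsing q12 q13 q23; ring
    have hT2 : (W e1 e2 e3).toAffine.Nonsingular (e2 : ℚ) 0 := by
      apply crv_nonsing q12 q13 q23; ring
    have hT3 : (W e1 e2 e3).toAffine.Nonsingular (e3 : ℚ) 0 := by
      apply crv_nonsing q12 q13 q23; ring
    let F4 : Finset (W e1 e2 e3).toAffine.Point :=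
      {0, Affine.Point.some _ _ hT1, Affine.Point.some _ _ hT2, Affine.Point.some _ _ hT3}
    have c12 : (e1 : ℚ) ≠ e2 := fun h => q12 (by rw [h])
    have c13 : (e1 : ℚ) ≠ e3 := fun h => q13 (by rw [h])
    have c23 : (e2 : ℚ) ≠ e3 := fun h => q23 (by rw [h])
    have hF4 : F4.card = 4 := by
      simp only [F4]
      rw [Finset.card_insert_of_notMem, Finset.card_insert_of_notMem,
        Finset.card_insert_of_notMem, Finset.card_singleton]
      · simp [c23]
      · simp [c12, c13]
      · simp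
    have h4 : 2 ^ (Module.finrank ℤ (W e1 e2 e3).toAffine.Point + 2) ≤ T.card := by
      refine rkb2 _ hfg T hcov' F4 hF4.ge ?_
      intro g hg
      simp only [F4, Finset.mem_insert, Finset.mem_singleton] at hg
      rcases hg with rfl | rfl | rfl | rfl
      · exact add_zero _
      · exact dbl_zero _
      · exact dbl_zero _
      · exact dbl_zero _
    have h5 : 2 ^ (1 + 2) ≤ 2 ^ (Module.finrank ℤ (W e1 e2 e3).toAffine.Point + 2) :=
      Nat.pow_le_pow_right (by norm_num) (by omega)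
    have h6 := h5.trans (h4.trans hTc)
    norm_num at h6
  have hfin : Finite (W e1 e2 e3).toAffine.Point := finite_of_rk hfg hrk
  refine Set.finite_coe_iff.1 (Finite.of_injective (fun q : Pts e1 e2 e3 =>
    (Affine.Point.some q.1.1 q.1.2 ((ns h12 h13 h23).2 q.2) : (W e1 e2 e3).toAffine.Point)) ?_)
  rintro ⟨⟨x, y⟩, h1⟩ ⟨⟨x', y'⟩, h2⟩ h3
  simp only [WeierstrassCurve.Affine.Point.some.injEq] at h3
  obtain ⟨g1, g2⟩ := h3
  subst g1; subst g2; rfl

/-- **Many classes**: the set of the rational points is infinite. -/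
theorem infinite_of_five (h12 : e1 ≠ e2) (h13 : e1 ≠ e3) (h23 : e2 ≠ e3) (q : Fin 5 → ℚ × ℚ)
    (hq : ∀ i, q i ∈ Pts e1 e2 e3 ∧ (q i).2 ≠ 0)
    (hne : ∀ i j, i < j → ¬ Eqv e1 e2 e3 (q i).1 (q j).1) : (Pts e1 e2 e3).Infinite := by
  classical
  intro hfin
  have q12 : -(e1 : ℚ) ≠ -(e2 : ℚ) := fun h => h12 (by exact_mod_cast neg_injective h)
  have q13 : -(e1 : ℚ) ≠ -(e3 : ℚ) := fun h => h13 (by exact_mod_cast neg_injective h)
  have q23 : -(e2 : ℚ) ≠ -(e3 : ℚ) := fun h => h23 (by exact_mod_cast neg_injective h)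
  have hF : Finite (W e1 e2 e3).toAffine.Point := by
    have : Finite (Pts e1 e2 e3) := hfin.to_subtype
    refine Finite.of_surjective (fun o : Option (Pts e1 e2 e3) => (match o with
      | none => 0
      | some p => Affine.Point.some p.1.1 p.1.2 ((ns h12 h13 h23).2 p.2) :
        (W e1 e2 e3).toAffine.Point)) ?_
    intro g
    rcases g with _ | ⟨x, y, hn⟩
    · exact ⟨none, rfl⟩
    · exact ⟨some ⟨(x, y), (ns h12 h13 h23).1 hn⟩, rfl⟩
  set P : Fin 5 → (W e1 e2 e3).toAffine.Point := fun i =>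
    Affine.Point.some (q i).1 (q i).2 ((ns h12 h13 h23).2 (hq i).1) with hP
  set D := (nsmulAddMonoidHom (α := (W e1 e2 e3).toAffine.Point) 2).range with hD
  -- the kernel
  have hT1 : (W e1 e2 e3).toAffine.Nonsingular (e1 : ℚ) 0 := by
    apply crv_nonsing q12 q13 q23; ring
  have hT2 : (W e1 e2 e3).toAffine.Nonsingular (e2 : ℚ) 0 := by
    apply crv_nonsing q12 q13 q23; ring
  have hT3 : (W e1 e2 e3).toAffine.Nonsingular (e3 : ℚ) 0 := by
    apply crv_nonsing q12 q13 q23; ring
  let F4 : Finset (W e1 e2 e3).toAffine.Point :=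
    {0, Affine.Point.some _ _ hT1, Affine.Point.some _ _ hT2, Affine.Point.some _ _ hT3}
  have hker : ∀ g : (nsmulAddMonoidHom (α := (W e1 e2 e3).toAffine.Point) 2).ker,
      (g : (W e1 e2 e3).toAffine.Point) ∈ F4 := by
    rintro ⟨g, hg⟩
    rw [AddMonoidHom.mem_ker, nsmulAddMonoidHom_apply, two_nsmul] at hg
    show g ∈ F4
    rcases g with _ | ⟨x, y, hn⟩
    · exact Finset.mem_insert_self _ _
    · have hy : y = 0 := by
        by_contra hy
        have h1 := xRep_double hn hy
        rw [hg] at h1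
        have := congrFun h1 1
        simp [Affine.Point.xRep] at this
      subst hy
      have h1 : (0 : ℚ) ^ 2 = (x - e1) * (x - e2) * (x - e3) := (ns h12 h13 h23).1 hn
      have h2 : (x - e1) * (x - e2) * (x - e3) = 0 := by rw [← h1]; ring
      rcases mul_eq_zero.1 h2 with h3 | h3
      · rcases mul_eq_zero.1 h3 with h4 | h4
        · have : x = e1 := sub_eq_zero.1 h4
          subst this
          simp [F4]
        · have : x = e2 := sub_eq_zero.1 h4
          subst this
          simp [F4]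
      · have : x = e3 := sub_eq_zero.1 h3
        subst this
        simp [F4]
  have hF4 : F4.card ≤ 4 := Finset.card_le_four
  have hkc : Nat.card (nsmulAddMonoidHom (α := (W e1 e2 e3).toAffine.Point) 2).ker ≤ 4 := by
    have h1 := Nat.card_le_card_of_injective (fun g :
      (nsmulAddMonoidHom (α := (W e1 e2 e3).toAffine.Point) 2).ker => (⟨g, hker g⟩ : F4))
      (fun a b h => Subtype.ext (congrArg (fun z : F4 => (z : (W e1 e2 e3).toAffine.Point)) h))
    rw [Nat.card_eq_fintype_card (α := F4), Fintype.card_coe] at h1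
    exact h1.trans hF4
  have hcard : Nat.card ((W e1 e2 e3).toAffine.Point ⧸ D) ≤ 4 := by
    rw [hD, index_double]
    exact hkc
  have hfq : Finite ((W e1 e2 e3).toAffine.Point ⧸ D) := inferInstance
  have := Fintype.ofFinite ((W e1 e2 e3).toAffine.Point ⧸ D)
  obtain ⟨i, j, hij, he⟩ := Fintype.exists_ne_map_eq_of_card_lt
    (fun i : Fin 5 => (QuotientAddGroup.mk (P i) : (W e1 e2 e3).toAffine.Point ⧸ D)) (by
      rw [Fintype.card_fin, ← Nat.card_eq_fintype_card]
      omega)
  have key : ∀ i j : Fin 5, (QuotientAddGroup.mk (P i) : (W e1 e2 e3).toAffine.Point ⧸ D) =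
      QuotientAddGroup.mk (P j) → Eqv e1 e2 e3 (q i).1 (q j).1 := by
    intro i j he
    rw [QuotientAddGroup.eq] at he
    obtain ⟨Q, hQ⟩ := he
    rw [nsmulAddMonoidHom_apply, two_nsmul] at hQ
    have h1 : P i + P j = (Q + P i) + (Q + P i) := by
      have : P j = P i + (-P i + P j) := by abel
      rw [this, ← hQ]
      abel
    have h2 := sq_of_double q12 q13 q23 ((ns h12 h13 h23).2 (hq i).1)
      ((ns h12 h13 h23).2 (hq j).1) (hq i).2 (hq j).2 (Q + P i) h1
    obtain ⟨a1, a2, a3⟩ := h2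
    simp only [← sub_eq_add_neg] at a1 a2 a3
    exact ⟨a1, a2, a3⟩
  rcases lt_or_gt_of_ne hij with h | h
  · exact hne i j h (key i j he)
  · exact hne j i h (key j i he.symm)

lemma Eqv.symm {x x' : ℚ} (h : Eqv e1 e2 e3 x x') : Eqv e1 e2 e3 x' x := by
  obtain ⟨h1, h2, h3⟩ := h
  exact ⟨by rw [mul_comm]; exact h1, by rw [mul_comm]; exact h2, by rw [mul_comm]; exact h3⟩

/-- **Completeness**: infinitely many points give five classes. -/
theorem exists_five (h12 : e1 ≠ e2) (h13 : e1 ≠ e3) (h23 : e2 ≠ e3)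
    (hinf : (Pts e1 e2 e3).Infinite) : ∃ q : Fin 5 → ℚ × ℚ,
      (∀ i, q i ∈ Pts e1 e2 e3 ∧ (q i).2 ≠ 0) ∧
      ∀ i j, i ≠ j → ¬ Eqv e1 e2 e3 (q i).1 (q j).1 := by
  classical
  have hstep : ∀ n : ℕ, n ≤ 5 → ∃ S : Finset (ℚ × ℚ), S.card = n ∧
      (∀ p ∈ S, p ∈ Pts e1 e2 e3 ∧ p.2 ≠ 0) ∧
      ∀ p ∈ S, ∀ p' ∈ S, p ≠ p' → ¬ Eqv e1 e2 e3 p.1 p'.1 := by
    intro n
    induction n with
    | zero => exact fun _ => ⟨∅, by simp, by simp, by simp⟩
    | succ n ih =>
      intro hn
      obtain ⟨S, hS1, hS2, hS3⟩ := ih (by omega)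
      have h1 : ∃ p ∈ Pts e1 e2 e3, p.2 ≠ 0 ∧ ∀ q ∈ S, ¬ Eqv e1 e2 e3 p.1 q.1 := by
        by_contra hcon
        push Not at hcon
        exact hinf (finite_of_cover h12 h13 h23 S (by omega) hS2 fun p hp hp0 => hcon p hp hp0)
      obtain ⟨p, hp, hp0, hpq⟩ := h1
      have hpS : p ∉ S := by
        intro h
        exact hpq p h ⟨⟨_, rfl⟩, ⟨_, rfl⟩, ⟨_, rfl⟩⟩
      refine ⟨insert p S, by rw [Finset.card_insert_of_notMem hpS, hS1], ?_, ?_⟩
      · intro r hr
        rcases Finset.mem_insert.1 hr with rfl | hr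
        · exact ⟨hp, hp0⟩
        · exact hS2 r hr
      · intro r hr s hs hrs
        rcases Finset.mem_insert.1 hr with hr' | hr'
        · rcases Finset.mem_insert.1 hs with hs' | hs'
          · exact absurd (hr'.trans hs'.symm) hrs
          · rw [hr']
            exact hpq s hs'
        · rcases Finset.mem_insert.1 hs with hs' | hs'
          · rw [hs']
            exact fun h => hpq r hr' h.symm
          · exact hS3 r hr' s hs' hrs
  obtain ⟨S, hS1, hS2, hS3⟩ := hstep 5 le_rfl
  let f := (Fintype.equivFinOfCardEq (by rw [Fintype.card_coe, hS1] : Fintype.card S = 5)).symm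
  refine ⟨fun i => (f i : ℚ × ℚ), fun i => hS2 _ (f i).2, fun i j hij => ?_⟩
  refine hS3 _ (f i).2 _ (f j).2 fun h => hij (f.injective (Subtype.ext h))

end

end Pool.Agent.R395.FT
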