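import Mathlib
import Pool.Agent.TH841.AL.Stm

/-!
# Local points of the coverings give primitive solutions modulo the powers of `p`
-/

set_option autoImplicit false

namespace Pool.Agent.R395.FT

open Pool.Agent.TH841.AL (Cov ModSol)

/-- local solutions give primitive solutions modulo all powers of `p` -/
theorem mod_of_cov (p : ℕ) [hp : Fact p.Prime] {A B b d : ℤ} (h : Cov ℚ_[p] A B b d) (k : ℕ) :
    ModSol A B b d (p ^ k) := by
  obtain ⟨M, e, x, y, hne, h1, h2⟩ := h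
  obtain ⟨f, hf⟩ : ∃ f : Fin 4 → ℚ_[p], f = ![M, e, x, y] := ⟨_, rfl⟩
  have f0 : f 0 = M := by rw [hf]; rfl
  have f1 : f 1 = e := by rw [hf]; rfl
  have f2 : f 2 = x := by rw [hf]; rfl
  have f3 : f 3 = y := by rw [hf]; rfl
  obtain ⟨i0, hi0⟩ := Finite.exists_max (fun i => ‖f i‖)
  have hz : f i0 ≠ 0 := by
    intro h0
    have hall : ∀ i, f i = 0 := by
      intro i
      have := hi0 i
      rw [h0, norm_zero] at this
      exact norm_le_zero_iff.1 this
    rcases hne with h | h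
    · exact h (by rw [← f0]; exact hall 0)
    · exact h (by rw [← f1]; exact hall 1)
  have hn : ∀ i, ‖f i / f i0‖ ≤ 1 := by
    intro i
    rw [norm_div]
    exact div_le_one_of_le₀ (hi0 i) (norm_nonneg _)
  obtain ⟨g, hg⟩ : ∃ g : Fin 4 → ℤ_[p], ∀ i, ((g i : ℤ_[p]) : ℚ_[p]) = f i / f i0 :=
    ⟨fun i => ⟨f i / f i0, hn i⟩, fun i => rfl⟩
  have g1 : g i0 = 1 := by
    apply Subtype.ext
    have := hg i0
    rw [div_self hz] at this
    exact this
  have k1 : (b : ℤ_[p]) * (g 0) ^ 2 - (A : ℤ_[p]) * (g 1) ^ 2 - (d : ℤ_[p]) * (g 2) ^ 2 = 0 := by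
    apply Subtype.ext
    push_cast
    rw [hg 0, hg 1, hg 2, f0, f1, f2]
    field_simp
    linear_combination h1
  have k2 : (b : ℤ_[p]) * (g 0) ^ 2 - (B : ℤ_[p]) * (g 1) ^ 2 - (b : ℤ_[p]) * d * (g 3) ^ 2 = 0 := by
    apply Subtype.ext
    push_cast
    rw [hg 0, hg 1, hg 3, f0, f1, f3]
    field_simp
    linear_combination h2
  have : NeZero (p ^ k) := ⟨pow_ne_zero k hp.out.ne_zero⟩
  obtain ⟨m, hm⟩ : ∃ m : Fin 4 → ℕ, ∀ i, m i = (PadicInt.toZModPow k (g i)).val := ⟨_, fun _ => rfl⟩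
  have hlt : ∀ i, m i < p ^ k := fun i => by
    rw [hm]
    exact ZMod.val_lt _
  have hcast : ∀ i, ((m i : ℕ) : ZMod (p ^ k)) = PadicInt.toZModPow k (g i) := fun i => by
    rw [hm, ZMod.natCast_zmod_val]
  refine ⟨m 0, m 1, m 2, m 3, hlt 0, hlt 1, hlt 2, hlt 3, ?_, ?_, ?_⟩
  · rcases Nat.eq_zero_or_pos k with hk | hk
    · rw [hk, pow_zero, Nat.gcd_one_right, Nat.gcd_one_right]
    · have hp1 : p ^ k ≠ 1 := (Nat.one_lt_pow hk.ne' hp.out.one_lt).ne'
      have hm1 : m i0 = 1 := by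
        rw [hm, g1, map_one, ZMod.val_one'' hp1]
      fin_cases i0
      · have hm1 : m 0 = 1 := hm1
        rw [hm1, Nat.gcd_one_left, Nat.gcd_one_left]
      · have hm1 : m 1 = 1 := hm1
        rw [hm1, Nat.gcd_one_right, Nat.gcd_one_left]
      · have hm1 : m 2 = 1 := hm1
        rw [hm1, Nat.gcd_one_left, Nat.gcd_one_left, Nat.gcd_one_right]
      · have hm1 : m 3 = 1 := hm1
        rw [hm1, Nat.gcd_one_right, Nat.gcd_one_left, Nat.gcd_one_right]
  · have h3 := congrArg (PadicInt.toZModPow (p := p) k) k1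
    simp only [map_sub, map_mul, map_pow, map_intCast, map_zero, ← hcast] at h3
    rw [← ZMod.intCast_zmod_eq_zero_iff_dvd]
    push_cast
    exact h3
  · have h3 := congrArg (PadicInt.toZModPow (p := p) k) k2
    simp only [map_sub, map_mul, map_pow, map_intCast, map_zero, ← hcast] at h3
    rw [← ZMod.intCast_zmod_eq_zero_iff_dvd]
    push_cast
    exact h3

end Pool.Agent.R395.FT
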