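import Pool.Agent.H437R2.Man.MWPar

/-!
# Square classes and doubling on `y² = (x + e₁)(x + e₂)(x + e₃)`

The converse of `add_double`: if `P + P' = S + S` and `P`, `P'` are not `2`-torsion points, then the
products `(x + eᵢ)(x' + eᵢ)` are squares.
-/

set_option autoImplicit false
set_option linter.unusedSectionVars false

open WeierstrassCurve

namespace Pool.Agent.R395.FT

open Pool.Agent.H437R2.Man.MW

variable {K : Type} [Field K] [DecidableEq K] [CharZero K]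

/-- three squares from two and the product -/
lemma third {a b c s : K} (ha : IsSquare a) (hb : IsSquare b) (ha0 : a ≠ 0) (hb0 : b ≠ 0)
    (h : a * b * c = s ^ 2) : IsSquare c := by
  obtain ⟨r, rfl⟩ := ha
  obtain ⟨t, rfl⟩ := hb
  have hr : r ≠ 0 := fun h0 => ha0 (by rw [h0, mul_zero])
  have ht : t ≠ 0 := fun h0 => hb0 (by rw [h0, mul_zero])
  refine ⟨s / (r * t), ?_⟩
  field_simp
  linear_combination h

lemma quot {u v s t : K} (hu : u ≠ 0) (h1 : v * u = s ^ 2) (h2 : u = t ^ 2) : IsSquare v := by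
  have ht : t ≠ 0 := fun h0 => hu (by rw [h2, h0]; ring)
  refine ⟨s / t, ?_⟩
  field_simp
  rw [← h1, h2]

/-- the chord identity -/
lemma chord {e1 e2 e3 x1 y1 x2 y2 : K} (hx : x1 ≠ x2)
    (g1 : y1 ^ 2 = (x1 + e1) * (x1 + e2) * (x1 + e3))
    (g2 : y2 ^ 2 = (x2 + e1) * (x2 + e2) * (x2 + e3)) :
    (x1 + e1) * (x2 + e1) * (numr e1 e2 e3 x1 x2 (y1 * y2) / (x1 - x2) ^ 2 + e1) =
      ((y2 * (x1 + e1) - y1 * (x2 + e1)) / (x1 - x2)) ^ 2 := by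
  have hx' : x1 - x2 ≠ 0 := sub_ne_zero.mpr hx
  unfold numr
  field_simp
  linear_combination (-(x2 + e1) ^ 2) * g1 + (-(x1 + e1) ^ 2) * g2

lemma chord2 {e1 e2 e3 x1 y1 x2 y2 : K} (hx : x1 ≠ x2)
    (g1 : y1 ^ 2 = (x1 + e1) * (x1 + e2) * (x1 + e3))
    (g2 : y2 ^ 2 = (x2 + e1) * (x2 + e2) * (x2 + e3)) :
    (x1 + e2) * (x2 + e2) * (numr e1 e2 e3 x1 x2 (y1 * y2) / (x1 - x2) ^ 2 + e2) =
      ((y2 * (x1 + e2) - y1 * (x2 + e2)) / (x1 - x2)) ^ 2 := by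
  have hx' : x1 - x2 ≠ 0 := sub_ne_zero.mpr hx
  unfold numr
  field_simp
  linear_combination (-(x2 + e2) ^ 2) * g1 + (-(x1 + e2) ^ 2) * g2

lemma chord3 {e1 e2 e3 x1 y1 x2 y2 : K} (hx : x1 ≠ x2)
    (g1 : y1 ^ 2 = (x1 + e1) * (x1 + e2) * (x1 + e3))
    (g2 : y2 ^ 2 = (x2 + e1) * (x2 + e2) * (x2 + e3)) :
    (x1 + e3) * (x2 + e3) * (numr e1 e2 e3 x1 x2 (y1 * y2) / (x1 - x2) ^ 2 + e3) =
      ((y2 * (x1 + e3) - y1 * (x2 + e3)) / (x1 - x2)) ^ 2 := by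
  have hx' : x1 - x2 ≠ 0 := sub_ne_zero.mpr hx
  unfold numr
  field_simp
  linear_combination (-(x2 + e3) ^ 2) * g1 + (-(x1 + e3) ^ 2) * g2

/-- the numerator of `x(2 P)` -/
def dnum (e1 e2 e3 x : K) : K := x ^ 4 - 2 * (e1 * e2 + e1 * e3 + e2 * e3) * x ^ 2 -
  8 * (e1 * e2 * e3) * x - (4 * (e1 + e2 + e3) * (e1 * e2 * e3) -
    (e1 * e2 + e1 * e3 + e2 * e3) ^ 2)

lemma dbl1 {e1 e2 e3 x y : K} (hy : y ≠ 0) (g : y ^ 2 = (x + e1) * (x + e2) * (x + e3)) :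
    dnum e1 e2 e3 x / (4 * y ^ 2) + e1 =
      (((x + e1) ^ 2 - (e1 - e2) * (e1 - e3)) / (2 * y)) ^ 2 := by
  unfold dnum
  field_simp
  rw [g]
  ring

lemma dbl2 {e1 e2 e3 x y : K} (hy : y ≠ 0) (g : y ^ 2 = (x + e1) * (x + e2) * (x + e3)) :
    dnum e1 e2 e3 x / (4 * y ^ 2) + e2 =
      (((x + e2) ^ 2 - (e2 - e1) * (e2 - e3)) / (2 * y)) ^ 2 := by
  unfold dnum
  field_simp
  rw [g]
  ring

lemma dbl3 {e1 e2 e3 x y : K} (hy : y ≠ 0) (g : y ^ 2 = (x + e1) * (x + e2) * (x + e3)) :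
    dnum e1 e2 e3 x / (4 * y ^ 2) + e3 =
      (((x + e3) ^ 2 - (e3 - e1) * (e3 - e2)) / (2 * y)) ^ 2 := by
  unfold dnum
  field_simp
  rw [g]
  ring

/-- double of a point of order two -/
lemma dbl_zero {e1 e2 e3 x : K} (hn : (crv e1 e2 e3).toAffine.Nonsingular x 0) :
    (Affine.Point.some x 0 hn : (crv e1 e2 e3).toAffine.Point) + Affine.Point.some x 0 hn = 0 := by
  have h1 : (crv e1 e2 e3).toAffine.Nonsingular x (-0) := by
    rw [neg_zero]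
    exact hn
  have h2 := neg_mk hn h1
  have h3 : (Affine.Point.some x (-0) h1 : (crv e1 e2 e3).toAffine.Point) =
      Affine.Point.some x 0 hn := by
    congr 1
    exact neg_zero
  rw [h3] at h2
  nth_rw 1 [← h2]
  exact neg_add_cancel _

/-- **The converse of `add_double`.** -/
theorem sq_of_double {e1 e2 e3 x1 y1 x2 y2 : K} (h12 : e1 ≠ e2) (h13 : e1 ≠ e3) (h23 : e2 ≠ e3)
    (h1 : (crv e1 e2 e3).toAffine.Nonsingular x1 y1)
    (h2 : (crv e1 e2 e3).toAffine.Nonsingular x2 y2) (hy1 : y1 ≠ 0) (hy2 : y2 ≠ 0)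
    (S : Pt e1 e2 e3)
    (hS : (Affine.Point.some x1 y1 h1 : Pt e1 e2 e3) + Affine.Point.some x2 y2 h2 = S + S) :
    IsSquare ((x1 + e1) * (x2 + e1)) ∧ IsSquare ((x1 + e2) * (x2 + e2)) ∧
      IsSquare ((x1 + e3) * (x2 + e3)) := by
  by_cases hx : x1 = x2
  · subst hx
    exact ⟨⟨x1 + e1, rfl⟩, ⟨x1 + e2, rfl⟩, ⟨x1 + e3, rfl⟩⟩
  have g1 := crv_eqn.mp h1.1
  have g2 := crv_eqn.mp h2.1
  have hR := xRep_add h1 h2 hx
  have hR0 : (Affine.Point.some x1 y1 h1 : Pt e1 e2 e3) + Affine.Point.some x2 y2 h2 ≠ 0 := by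
    intro h0
    rw [h0] at hR
    have := congrFun hR 1
    simp [Affine.Point.xRep] at this
  rcases S with _ | ⟨x, y, hn⟩
  · exfalso
    apply hR0
    rw [hS]
    exact add_zero _
  by_cases hy : y = 0
  · exfalso
    apply hR0
    rw [hS]
    subst hy
    exact dbl_zero hn
  have g := crv_eqn.mp hn.1
  have hD := xRep_double hn hy
  rw [hS] at hR
  rw [hR] at hD
  have hx3 : numr e1 e2 e3 x1 x2 (y1 * y2) / (x1 - x2) ^ 2 = dnum e1 e2 e3 x / (4 * y ^ 2) := by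
    have := congrFun hD 0
    simpa [dnum] using this
  have c1 := chord hx g1 g2
  have c2 := chord2 hx g1 g2
  have c3 := chord3 hx g1 g2
  rw [hx3] at c1 c2 c3
  have d1 := dbl1 (e1 := e1) (e2 := e2) (e3 := e3) hy g
  have d2 := dbl2 (e1 := e1) (e2 := e2) (e3 := e3) hy g
  have d3 := dbl3 (e1 := e1) (e2 := e2) (e3 := e3) hy g
  set X := dnum e1 e2 e3 x / (4 * y ^ 2) with hX
  have hprod1 : ((x1 + e1) * (x2 + e1)) * ((x1 + e2) * (x2 + e2)) * ((x1 + e3) * (x2 + e3)) =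
      (y1 * y2) ^ 2 := by
    rw [mul_pow, g1, g2]
    ring
  have n1 : (x1 + e1) * (x2 + e1) ≠ 0 := by
    intro h0
    rw [h0, zero_mul, zero_mul] at hprod1
    exact pow_ne_zero 2 (mul_ne_zero hy1 hy2) hprod1.symm
  have n2 : (x1 + e2) * (x2 + e2) ≠ 0 := by
    intro h0
    rw [h0, mul_zero, zero_mul] at hprod1
    exact pow_ne_zero 2 (mul_ne_zero hy1 hy2) hprod1.symm
  have n3 : (x1 + e3) * (x2 + e3) ≠ 0 := by
    intro h0
    rw [h0, mul_zero] at hprod1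
    exact pow_ne_zero 2 (mul_ne_zero hy1 hy2) hprod1.symm
  have f1 : X + e1 ≠ 0 → IsSquare ((x1 + e1) * (x2 + e1)) := fun h => quot h c1 d1
  have f2 : X + e2 ≠ 0 → IsSquare ((x1 + e2) * (x2 + e2)) := fun h => quot h c2 d2
  have f3 : X + e3 ≠ 0 → IsSquare ((x1 + e3) * (x2 + e3)) := fun h => quot h c3 d3
  by_cases z1 : X + e1 = 0
  · have z2 : X + e2 ≠ 0 := fun h => h12 (by linear_combination z1 - h)
    have z3 : X + e3 ≠ 0 := fun h => h13 (by linear_combination z1 - h)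
    exact ⟨third (f2 z2) (f3 z3) n2 n3 (by rw [← hprod1]; ring), f2 z2, f3 z3⟩
  by_cases z2 : X + e2 = 0
  · have z3 : X + e3 ≠ 0 := fun h => h23 (by linear_combination z2 - h)
    exact ⟨f1 z1, third (f1 z1) (f3 z3) n1 n3 (by rw [← hprod1]; ring), f3 z3⟩
  by_cases z3 : X + e3 = 0
  · exact ⟨f1 z1, f2 z2, third (f1 z1) (f2 z2) n1 n2 hprod1⟩
  exact ⟨f1 z1, f2 z2, f3 z3⟩

end Pool.Agent.R395.FT
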