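import Pool.Agent.R395.FT.Fin
import Pool.Agent.R395.FT.Mod
import Pool.Agent.R395.FT.Comp
import Pool.Agent.TH841.AL.Cp
import Pool.Agent.TH841.AL.Rl
import Pool.Agent.TH841.AL.Sc
import Pool.Agent.TH231.NO.QumCore
import Pool.Agent.W307.SE.Stm
import Pool.Agent.W402.FK.RKS
import Pool.Agent.W405.SE.GoodP
import Pool.Agent.W407.SE.Ratp
import Pool.Agent.W597.SE.SELC

/-!
# The finite test for `2`-coverings: soundness and completeness

`Pass A B a d m`: the covering `a M² - A e² = d x²`, `a M² - B e² = a d y²` of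
`y² = x (x - A) (x - B)` passes the sign test and has primitive solutions modulo `m`.
(`core` is copied from `TH841/FD/Covl.lean`.)
-/

set_option autoImplicit false
set_option linter.unusedSectionVars false

namespace Pool.Agent.R395.FT

open Pool.Agent.TH231.NO (Scal scal_real scal_padic)
open Pool.Agent.TH841.AL (Cov RealSol ModSol)
open Pool.Agent.W307.SE (Loc Sel LocR SelR)

lemma core {K : Type} [Field K] [CharZero K] (H : Scal K) (A B : ℤ) (b d : K)
    (hA : A ≠ 0) (hB : B ≠ 0) (hAB : A ≠ B) (hb : b ≠ 0) (hd : d ≠ 0)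
    (h : ∃ M e x y : K, (M ≠ 0 ∨ e ≠ 0) ∧ b * M ^ 2 - (A : K) * e ^ 2 = d * x ^ 2 ∧
      b * M ^ 2 - (B : K) * e ^ 2 = b * d * y ^ 2) :
    ∃ X Y : K, Y ≠ 0 ∧ Y ^ 2 = X * (X - A) * (X - B) ∧ IsSquare (X * b) ∧
      IsSquare ((X - A) * d) := by
  obtain ⟨M, e, x, y, hMe, h1, h2⟩ := h
  have hα : (A : K) ≠ 0 := Int.cast_ne_zero.2 hA
  have hβ : (B : K) ≠ 0 := Int.cast_ne_zero.2 hB
  have hD : (A : K) - (B : K) ≠ 0 := sub_ne_zero.2 (Int.cast_injective.ne hAB)
  by_cases he : e = 0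
  · have hM : M ≠ 0 := hMe.resolve_right (not_not.2 he)
    rw [he] at h1 h2
    have h3 : M ^ 2 = d * y ^ 2 := by
      apply mul_left_cancel₀ hb
      linear_combination h2
    have hy : y ≠ 0 := by
      rintro rfl
      apply pow_ne_zero 2 hM
      rw [h3]
      ring
    have hds : d = (M / y) ^ 2 := by
      rw [div_pow, eq_div_iff (pow_ne_zero 2 hy)]
      exact h3.symm
    have hbs : b = (x / y) ^ 2 := by
      rw [div_pow, eq_div_iff (pow_ne_zero 2 hy)]
      apply mul_left_cancel₀ hd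
      linear_combination h1 - b * h3
    obtain ⟨u, hu, hr⟩ := H {A, B}
    obtain ⟨r, hr0, hr1⟩ := hr A (by simp)
    obtain ⟨s, hs0, hs1⟩ := hr B (by simp)
    have e1 : (1 / u ^ 2 - (A : K)) = (r / u) ^ 2 := by
      rw [div_pow, hr1]
      field_simp
    have e2 : (1 / u ^ 2 - (B : K)) = (s / u) ^ 2 := by
      rw [div_pow, hs1]
      field_simp
    refine ⟨1 / u ^ 2, 1 / u * (r / u) * (s / u), ?_, ?_, ⟨1 / u * (x / y), ?_⟩,
      ⟨r / u * (M / y), ?_⟩⟩
    · exact mul_ne_zero (mul_ne_zero (one_div_ne_zero hu) (div_ne_zero hr0 hu))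
        (div_ne_zero hs0 hu)
    · rw [e1, e2]
      ring
    · rw [hbs]
      ring
    · rw [e1, hds]
      ring
  -- the affine coordinates
  obtain ⟨m, hm⟩ : ∃ m, m = M / e := ⟨_, rfl⟩
  obtain ⟨v, hv⟩ : ∃ v, v = x / e := ⟨_, rfl⟩
  obtain ⟨w, hw⟩ : ∃ w, w = y / e := ⟨_, rfl⟩
  have k1 : b * m ^ 2 - (A : K) = d * v ^ 2 := by
    rw [hm, hv, div_pow, div_pow]
    field_simp
    linear_combination h1
  have k2 : b * m ^ 2 - (B : K) = b * d * w ^ 2 := by
    rw [hm, hw, div_pow, div_pow]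
    field_simp
    linear_combination h2
  clear h1 h2 hm hv hw hMe he
  by_cases hm0 : m = 0
  · -- points near `(0, 0)`
    rw [hm0] at k1 k2
    have hv0 : v ≠ 0 := by
      rintro rfl
      apply hα
      linear_combination -k1
    have hw0 : w ≠ 0 := by
      rintro rfl
      apply hβ
      linear_combination -k2
    obtain ⟨u, hu, hr⟩ := H {A, B}
    obtain ⟨t, ht0, ht1⟩ := hr A (by simp)
    obtain ⟨s, hs0, hs1⟩ := hr B (by simp)
    have eA : (A : K) = -(d * v ^ 2) := by linear_combination -k1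
    have eB : (B : K) = -(b * d * w ^ 2) := by linear_combination -k2
    have eX : (A : K) * B * u ^ 2 = b * (d * v * w * u) ^ 2 := by
      rw [eA, eB]
      ring
    have eXA : (A : K) * B * u ^ 2 - A = d * (v * s) ^ 2 := by
      rw [mul_pow, hs1]
      linear_combination k1 - (B : K) * u ^ 2 * k1
    have eXB : (A : K) * B * u ^ 2 - B = b * d * (w * t) ^ 2 := by
      rw [mul_pow, ht1]
      linear_combination k2 - (A : K) * u ^ 2 * k2
    refine ⟨(A : K) * B * u ^ 2, b * d * (d * v * w * u) * (v * s) * (w * t), ?_, ?_,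
      ⟨b * (d * v * w * u), ?_⟩, ⟨d * (v * s), ?_⟩⟩
    · exact mul_ne_zero (mul_ne_zero (mul_ne_zero (mul_ne_zero hb hd) (mul_ne_zero (mul_ne_zero
        (mul_ne_zero hd hv0) hw0) hu)) (mul_ne_zero hv0 hs0)) (mul_ne_zero hw0 ht0)
    · rw [eXA, eXB, eX]
      ring
    · rw [eX]
      ring
    · rw [eXA]
      ring
  by_cases hv0 : v = 0
  · -- points near `(A, 0)`
    rw [hv0] at k1
    have eA : (A : K) = b * m ^ 2 := by linear_combination -k1
    have eAB : (A : K) - B = b * d * w ^ 2 := by linear_combination k2 - k1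
    obtain ⟨u, hu, hr⟩ := H {B - A, -A}
    obtain ⟨s, hs0, hs1⟩ := hr (B - A) (by simp)
    obtain ⟨t, ht0, ht1⟩ := hr (-A) (by simp)
    push_cast at hs1 ht1
    have eX : (A : K) + A * (A - B) * u ^ 2 = A * s ^ 2 := by
      rw [hs1]
      ring
    have eXB : (A : K) + A * (A - B) * u ^ 2 - B = (A - B) * t ^ 2 := by
      rw [ht1]
      ring
    refine ⟨(A : K) + A * (A - B) * u ^ 2, A * (A - B) * s * u * t, ?_, ?_, ⟨b * m * s, ?_⟩,
      ⟨b * m * d * w * u, ?_⟩⟩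
    · exact mul_ne_zero (mul_ne_zero (mul_ne_zero (mul_ne_zero hα hD) hs0) hu) ht0
    · rw [eXB, show (A : K) + A * (A - B) * u ^ 2 - A = A * (A - B) * u ^ 2 by ring, eX]
      ring
    · rw [eX, eA]
      ring
    · rw [show (A : K) + A * (A - B) * u ^ 2 - A = A * (A - B) * u ^ 2 by ring, eAB, eA]
      ring
  by_cases hw0 : w = 0
  · -- points near `(B, 0)`
    rw [hw0] at k2
    have eB : (B : K) = b * m ^ 2 := by linear_combination -k2
    have eBA : (B : K) - A = d * v ^ 2 := by linear_combination k1 - k2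
    have hD' : (B : K) - A ≠ 0 := by
      intro h0
      apply hD
      linear_combination -h0
    obtain ⟨u, hu, hr⟩ := H {A - B, -B}
    obtain ⟨s, hs0, hs1⟩ := hr (A - B) (by simp)
    obtain ⟨t, ht0, ht1⟩ := hr (-B) (by simp)
    push_cast at hs1 ht1
    have eX : (B : K) + B * (B - A) * u ^ 2 = B * s ^ 2 := by
      rw [hs1]
      ring
    have eXA : (B : K) + B * (B - A) * u ^ 2 - A = (B - A) * t ^ 2 := by
      rw [ht1]
      ring
    refine ⟨(B : K) + B * (B - A) * u ^ 2, B * (B - A) * s * u * t, ?_, ?_, ⟨b * m * s, ?_⟩,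
      ⟨d * v * t, ?_⟩⟩
    · exact mul_ne_zero (mul_ne_zero (mul_ne_zero (mul_ne_zero hβ hD') hs0) hu) ht0
    · rw [eXA, show (B : K) + B * (B - A) * u ^ 2 - B = B * (B - A) * u ^ 2 by ring, eX]
      ring
    · rw [eX, eB]
      ring
    · rw [eXA, eBA]
      ring
  -- the generic case
  refine ⟨b * m ^ 2, b * d * m * v * w, ?_, ?_, ⟨b * m, ?_⟩, ⟨d * v, ?_⟩⟩
  · exact mul_ne_zero (mul_ne_zero (mul_ne_zero (mul_ne_zero hb hd) hm0) hv0) hw0
  · rw [k1, k2]
    ring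
  · ring
  · rw [k1]
    ring

/-- a local point of the covering gives a local point of the curve in the class -/
lemma loc_of_cov {K : Type} [Field K] [CharZero K] (H : Scal K) {A B a d : ℤ} (hA : A ≠ 0)
    (hB : B ≠ 0) (hAB : A ≠ B) (ha : a ≠ 0) (hd : d ≠ 0) (h : Cov K A B a d) : Loc K A B a d :=
  core H A B (a : K) (d : K) hA hB hAB (Int.cast_ne_zero.2 ha) (Int.cast_ne_zero.2 hd) h

/-- and conversely -/
lemma cov_of_loc {K : Type} [Field K] [CharZero K] {A B a d : ℤ} (ha : a ≠ 0) (hd : d ≠ 0)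
    (h : Loc K A B a d) : Cov K A B a d := by
  obtain ⟨x, y, hy, hxy, ⟨s, hs⟩, ⟨t, ht⟩⟩ := h
  have ha' : (a : K) ≠ 0 := Int.cast_ne_zero.2 ha
  have hd' : (d : K) ≠ 0 := Int.cast_ne_zero.2 hd
  have hx : x ≠ 0 := by
    rintro rfl
    apply hy
    exact pow_eq_zero_iff (two_ne_zero) |>.1 (by rw [hxy]; ring)
  have hxA : x - A ≠ 0 := by
    intro h0
    apply hy
    exact pow_eq_zero_iff (two_ne_zero) |>.1 (by rw [hxy, h0]; ring)
  have hs0 : s ≠ 0 := by
    rintro rfl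
    rw [mul_zero] at hs
    exact mul_ne_zero hx ha' hs
  have ht0 : t ≠ 0 := by
    rintro rfl
    rw [mul_zero] at ht
    exact mul_ne_zero hxA hd' ht
  have e1 : x = s * s / a := by rw [← hs]; field_simp
  have e2 : x - A = t * t / d := by rw [← ht]; field_simp
  refine ⟨s / a, 1, t / d, y / (s * t), Or.inr one_ne_zero, ?_, ?_⟩
  · have : (a : K) * (s / a) ^ 2 = x := by rw [e1]; field_simp
    rw [this]
    have h3 : (d : K) * (t / d) ^ 2 = x - A := by rw [e2]; field_simp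
    rw [h3]
    ring
  · have h4 : (a : K) * (s / a) ^ 2 = x := by rw [e1]; field_simp
    rw [h4]
    have h5 : (x - B) * (x * (x - A)) = y ^ 2 := by rw [hxy]; ring
    have h6 : x * (x - A) * (a * d) = (s * t) ^ 2 := by
      have : x * (x - A) * (a * d) = (x * a) * ((x - A) * d) := by ring
      rw [this, hs, ht]
      ring
    have hst : (s * t) ^ 2 ≠ 0 := pow_ne_zero 2 (mul_ne_zero hs0 ht0)
    rw [div_pow, ← h6, ← h5]
    field_simp

/-- the finite test: at most four classes pass -/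
def Few (A B : ℤ) (m : ℕ) (l : List (ℤ × ℤ)) : Prop := l.length ≤ 4 ∧
  ∀ a d : ℤ, Squarefree a → Squarefree d → a ∣ 2 * A * B * (A - B) → d ∣ 2 * A * B * (A - B) →
    Pass A B a d m → (a, d) ∈ l

lemma sqf_dvd {d n : ℤ} (hd : Squarefree d) (h : ∀ p : ℕ, p.Prime → (p : ℤ) ∣ d → (p : ℤ) ∣ n) :
    d ∣ n := by
  rw [← Int.natAbs_dvd_natAbs, ← Nat.prod_primeFactors_of_squarefree
    (Int.squarefree_natAbs.2 hd)]
  refine Finset.prod_primes_dvd _ (fun p hp => (Nat.prime_of_mem_primeFactors hp).prime)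
    fun p hp => ?_
  have h1 := Nat.dvd_of_mem_primeFactors hp
  have h2 := h p (Nat.prime_of_mem_primeFactors hp) (Int.natCast_dvd.2 h1)
  exact Int.natCast_dvd.1 h2

lemma loc_cast {K : Type} [Field K] [CharZero K] {A B a d : ℤ} (h : Loc ℚ A B a d) :
    Loc K A B a d := by
  obtain ⟨x, y, hy, hxy, ⟨s, hs⟩, ⟨t, ht⟩⟩ := h
  refine ⟨(x : K), (y : K), by exact_mod_cast hy, ?_, ⟨(s : K), ?_⟩, ⟨(t : K), ?_⟩⟩
  · exact_mod_cast congrArg (Rat.cast : ℚ → K) hxy
  · have := congrArg (Rat.cast : ℚ → K) hs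
    push_cast at this
    exact this
  · have := congrArg (Rat.cast : ℚ → K) ht
    push_cast at this
    exact this

section

variable {e1 e2 e3 : ℤ}

/-- **soundness of the test** -/
theorem few_sound (h12 : e1 ≠ e2) (h13 : e1 ≠ e3) (h23 : e2 ≠ e3) (hs : e1 + e2 + e3 = 0) {m : ℕ}
    {l : List (ℤ × ℤ)} (h : Few (e2 - e1) (e3 - e1) m l) :
    (Pts e1 e2 e3).Finite := by
  classical
  obtain ⟨hl, h⟩ := h
  have hA : e2 - e1 ≠ 0 := sub_ne_zero.2 h12.symm
  have hB : e3 - e1 ≠ 0 := sub_ne_zero.2 h13.symm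
  have hAB : e2 - e1 ≠ e3 - e1 := fun h0 => h23 (by linarith)
  set R : ℤ × ℤ → ℚ × ℚ → Prop := fun q p => p ∈ Pts e1 e2 e3 ∧ p.2 ≠ 0 ∧
    IsSquare ((p.1 - e1) * (q.1 : ℚ)) ∧ IsSquare ((p.1 - e2) * (q.2 : ℚ)) with hR
  set S : Finset (ℚ × ℚ) := (l.toFinset.filter (fun q => ∃ p, R q p)).image
    (fun q => if hq : ∃ p, R q p then hq.choose else 0) with hS
  refine finite_of_cover h12 h13 h23 S ?_ ?_ ?_
  · exact Finset.card_image_le.trans ((Finset.card_filter_le _ _).trans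
      ((List.toFinset_card_le l).trans hl))
  · intro p hp
    rw [hS, Finset.mem_image] at hp
    obtain ⟨q, hq, rfl⟩ := hp
    have hex := (Finset.mem_filter.1 hq).2
    rw [dif_pos hex]
    exact ⟨hex.choose_spec.1, hex.choose_spec.2.1⟩
  · rintro ⟨x, y⟩ hp hy
    have hy : y ≠ 0 := hy
    have hp' : y ^ 2 = (x - e1) * (x - e2) * (x - e3) := hp
    set A := e1 * e2 + e1 * e3 + e2 * e3 with hA'
    set B := -(e1 * e2 * e3) with hB'
    have hs' : (e1 : ℚ) + e2 + e3 = 0 := by exact_mod_cast hs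
    have hxy : y ^ 2 = x ^ 3 + (A : ℚ) * x + (B : ℚ) := by
      rw [hp', hA', hB']
      push_cast
      linear_combination (-x ^ 2) * hs'
    have hroot : ∀ x : ℤ, x ^ 3 + A * x + B = (x - e1) * (x - e2) * (x - e3) := by
      intro x
      rw [hA', hB']
      linear_combination (x ^ 2) * hs
    obtain ⟨d, hdS, hd⟩ := Pool.Agent.W402.FK.exists_cls A B x y hy hxy
    have s1 := hd e1 (by rw [hroot e1]; ring)
    have s2 := hd e2 (by rw [hroot e2]; ring)
    have q1 : Squarefree (d e1) := hdS.1 e1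
    have q2 : Squarefree (d e2) := hdS.1 e2
    have hloc : Loc ℚ (e2 - e1) (e3 - e1) (d e1) (d e2) := by
      refine ⟨x - e1, y, hy, ?_, s1, ?_⟩
      · rw [hp']
        push_cast
        ring
      · push_cast
        have : x - (e1 : ℚ) - ((e2 : ℚ) - e1) = x - e2 := by ring
        rw [this]
        exact s2
    have hdv : ∀ (p : ℕ), p.Prime → ¬ (p : ℤ) ∣ 2 * (e2 - e1) * (e3 - e1) * ((e2 - e1) - (e3 - e1)) →
        ¬ (p : ℤ) ∣ d e1 ∧ ¬ (p : ℤ) ∣ d e2 := by
      intro p hp hpn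
      have : Fact p.Prime := ⟨hp⟩
      exact (Pool.Agent.W405.SE.goodp_of Pool.Agent.W407.SE.ratp) p _ _ _ _ hpn q1 q2
        (loc_cast hloc)
    have v1 : d e1 ∣ 2 * (e2 - e1) * (e3 - e1) * ((e2 - e1) - (e3 - e1)) :=
      sqf_dvd q1 fun p hp hpd => by
        by_contra hcon
        exact (hdv p hp hcon).1 hpd
    have v2 : d e2 ∣ 2 * (e2 - e1) * (e3 - e1) * ((e2 - e1) - (e3 - e1)) :=
      sqf_dvd q2 fun p hp hpd => by
        by_contra hcon
        exact (hdv p hp hcon).2 hpd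
    have hcQ := cov_of_loc q1.ne_zero q2.ne_zero hloc
    have hcR := cov_of_loc (K := ℝ) q1.ne_zero q2.ne_zero (loc_cast hloc)
    have hpass : Pass (e2 - e1) (e3 - e1) (d e1) (d e2) m :=
      ⟨(Pool.Agent.TH841.AL.RLf.rl _ _ _ _ q1.ne_zero q2.ne_zero).1 hcR,
        fun p _ hp k _ => Pool.Agent.TH841.AL.SCf.sc _ _ _ _ (p ^ k) (pow_pos hp.pos k)
          q1.ne_zero q2.ne_zero hcQ⟩
    have hmem := h _ _ q1 q2 v1 v2 hpass
    have hex : ∃ p, R (d e1, d e2) p := ⟨(x, y), hp, hy, s1, s2⟩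
    refine ⟨hex.choose, ?_, ?_⟩
    · rw [hS, Finset.mem_image]
      refine ⟨(d e1, d e2), Finset.mem_filter.2 ⟨List.mem_toFinset.2 hmem, hex⟩, ?_⟩
      rw [dif_pos hex]
    · obtain ⟨g1, g2, g3, g4⟩ := hex.choose_spec
      set z := hex.choose with hz
      have g1' : z.2 ^ 2 = (z.1 - e1) * (z.1 - e2) * (z.1 - e3) := g1
      have key : ∀ (e : ℤ) (c : ℤ), c ≠ 0 → IsSquare ((x - e) * (c : ℚ)) →
          IsSquare ((z.1 - e) * (c : ℚ)) → IsSquare ((x - e) * (z.1 - e)) := by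
        rintro e c hc ⟨u, hu⟩ ⟨v, hv⟩
        have hc' : (c : ℚ) ≠ 0 := by exact_mod_cast hc
        refine ⟨u * v / c, ?_⟩
        field_simp
        linear_combination (z.1 - e) * (c : ℚ) * hu + (u * u) * hv
      have k1 := key e1 _ q1.ne_zero s1 g3
      have k2 := key e2 _ q2.ne_zero s2 g4
      have hprod : ((x - e1) * (z.1 - e1)) * ((x - e2) * (z.1 - e2)) * ((x - e3) * (z.1 - e3)) =
          (y * z.2) ^ 2 := by
        rw [mul_pow, hp', g1']
        ring
      have n0 : (y * z.2) ^ 2 ≠ 0 := pow_ne_zero 2 (mul_ne_zero hy g2)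
      refine ⟨k1, k2, third k1 k2 ?_ ?_ hprod⟩
      · intro h0
        rw [h0, zero_mul, zero_mul] at hprod
        exact n0 hprod.symm
      · intro h0
        rw [h0, mul_zero, zero_mul] at hprod
        exact n0 hprod.symm

/-- the squarefree part of an integer -/
lemma exists_sqf (n : ℤ) (hn : n ≠ 0) : ∃ d r : ℤ, Squarefree d ∧ r ≠ 0 ∧ n = d * r ^ 2 := by
  obtain ⟨a, b, hab, ha⟩ := Nat.sq_mul_squarefree n.natAbs
  have hb : b ≠ 0 := by
    rintro rfl
    apply hn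
    rw [← Int.natAbs_eq_zero, ← hab]
    ring
  rcases Int.natAbs_eq n with h | h
  · refine ⟨a, b, Int.squarefree_natCast.2 ha, by exact_mod_cast hb, ?_⟩
    rw [h, ← hab]
    push_cast
    ring
  · refine ⟨-a, b, ?_, by exact_mod_cast hb, ?_⟩
    · rw [← Int.squarefree_natAbs, Int.natAbs_neg, Int.natAbs_natCast]
      exact ha
    · rw [h, ← hab]
      push_cast
      ring

/-- the Selmer group of the shifted curve embeds in the Selmer group -/
lemma sel_le {A B : ℤ} (h12 : e1 ≠ e2) (h13 : e1 ≠ e3) (h23 : e2 ≠ e3)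
    (hroot : ∀ x : ℤ, x ^ 3 + A * x + B = (x - e1) * (x - e2) * (x - e3))
    (hfin : (SelR A B).Finite) :
    (Sel (e2 - e1) (e3 - e1)).Finite ∧ (Sel (e2 - e1) (e3 - e1)).ncard ≤ (SelR A B).ncard := by
  classical
  have hsq : ∀ q : ℤ × ℤ, ∃ c r : ℤ, (q.1 * q.2 ≠ 0 → Squarefree c ∧ r ≠ 0 ∧
      q.1 * q.2 = c * r ^ 2) := by
    intro q
    by_cases h0 : q.1 * q.2 ≠ 0
    · obtain ⟨c, r, h1, h2, h3⟩ := exists_sqf _ h0
      exact ⟨c, r, fun _ => ⟨h1, h2, h3⟩⟩
    · exact ⟨0, 0, fun h => absurd h h0⟩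
  choose c r hcr using hsq
  let F : ℤ × ℤ → (ℤ → ℤ) := fun q e => if e = e1 then q.1 else if e = e2 then q.2 else
    if e = e3 then c q else 1
  have F1 : ∀ q, F q e1 = q.1 := fun q => if_pos rfl
  have F2 : ∀ q, F q e2 = q.2 := fun q => by
    show (if e2 = e1 then q.1 else if e2 = e2 then q.2 else if e2 = e3 then c q else 1) = q.2
    rw [if_neg h12.symm, if_pos rfl]
  have F3 : ∀ q, F q e3 = c q := fun q => by
    show (if e3 = e1 then q.1 else if e3 = e2 then q.2 else if e3 = e3 then c q else 1) = c q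
    rw [if_neg h13.symm, if_neg h23.symm, if_pos rfl]
  have F4 : ∀ q e, e ≠ e1 → e ≠ e2 → e ≠ e3 → F q e = 1 := fun q e a1 a2 a3 => by
    show (if e = e1 then q.1 else if e = e2 then q.2 else if e = e3 then c q else 1) = 1
    rw [if_neg a1, if_neg a2, if_neg a3]
  have hloc : ∀ (K : Type) [Field K] [CharZero K] (q : ℤ × ℤ), q.1 ≠ 0 → q.2 ≠ 0 →
      Loc K (e2 - e1) (e3 - e1) q.1 q.2 → LocR K A B (F q) := by
    intro K _ _ q hq1 hq2 ⟨x, y, hy, hxy, hs1, hs2⟩
    have hcub := Pool.Agent.W402.FK.cub K A B e1 e2 e3 hroot (x + e1)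
    have hxy' : y ^ 2 = (x + e1 - e1) * (x + e1 - e2) * (x + e1 - e3) := by
      rw [hxy]
      push_cast
      ring
    refine ⟨x + e1, y, hy, by rw [hcub, hxy'], fun e he => ?_⟩
    have t1 : IsSquare ((x + e1 - e1) * (q.1 : K)) := by
      have : x + (e1 : K) - e1 = x := by ring
      rw [this]
      exact hs1
    have t2 : IsSquare ((x + e1 - e2) * (q.2 : K)) := by
      have : x + (e1 : K) - e2 = x - ((e2 - e1 : ℤ) : K) := by push_cast; ring
      rw [this]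
      exact hs2
    rcases Pool.Agent.W402.FK.roots A B e1 e2 e3 hroot e he with rfl | rfl | rfl
    · rw [F1]
      exact t1
    · rw [F2]
      exact t2
    · rw [F3]
      obtain ⟨m1, m2, m3⟩ := hcr q (mul_ne_zero hq1 hq2)
      have hq1' : (q.1 : K) ≠ 0 := by exact_mod_cast hq1
      have hq2' : (q.2 : K) ≠ 0 := by exact_mod_cast hq2
      have hr' : (r q : K) ≠ 0 := by exact_mod_cast m2
      have m3' : (q.1 : K) * q.2 = c q * (r q : K) ^ 2 := by exact_mod_cast congrArg (Int.cast : ℤ → K) m3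
      have n1 : x + (e1 : K) - e1 ≠ 0 := by
        intro h0
        apply hy
        exact pow_eq_zero_iff (two_ne_zero) |>.1 (by rw [hxy', h0]; ring)
      have n2 : x + (e1 : K) - e2 ≠ 0 := by
        intro h0
        apply hy
        exact pow_eq_zero_iff (two_ne_zero) |>.1 (by rw [hxy', h0]; ring)
      have n3 : x + (e1 : K) - e ≠ 0 := by
        intro h0
        apply hy
        exact pow_eq_zero_iff (two_ne_zero) |>.1 (by rw [hxy', h0]; ring)
      refine third t1 t2 (mul_ne_zero n1 hq1') (mul_ne_zero n2 hq2') (s := y * (q.1 * q.2) / r q) ?_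
      rw [div_pow, mul_pow, hxy']
      field_simp
      rw [m3']
  have hmaps : ∀ q ∈ Sel (e2 - e1) (e3 - e1), F q ∈ SelR A B := by
    rintro q ⟨hq1, hq2, hR, hp⟩
    obtain ⟨m1, m2, m3⟩ := hcr q (mul_ne_zero hq1.ne_zero hq2.ne_zero)
    refine ⟨fun e => ?_, fun e he => ?_, hloc ℝ q hq1.ne_zero hq2.ne_zero hR,
      fun p _ => hloc ℚ_[p] q hq1.ne_zero hq2.ne_zero (hp p)⟩
    · by_cases a1 : e = e1
      · rw [a1, F1]
        exact hq1
      by_cases a2 : e = e2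
      · rw [a2, F2]
        exact hq2
      by_cases a3 : e = e3
      · rw [a3, F3]
        exact m1
      · rw [F4 q e a1 a2 a3]
        exact squarefree_one
    · refine F4 q e ?_ ?_ ?_ <;> rintro rfl <;> apply he <;> rw [hroot] <;> ring
  have hinj : Set.InjOn F (Sel (e2 - e1) (e3 - e1)) := by
    intro q _ q' _ h
    refine Prod.ext ?_ ?_
    · rw [← F1 q, ← F1 q', h]
    · rw [← F2 q, ← F2 q', h]
  exact ⟨Set.Finite.of_injOn hmaps hinj hfin, Set.ncard_le_ncard_of_injOn F hmaps hinj hfin⟩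

/-- **completeness of the test** -/
theorem few_complete {A B : ℤ} (h12 : e1 ≠ e2) (h13 : e1 ≠ e3) (h23 : e2 ≠ e3)
    (hroot : ∀ x : ℤ, x ^ 3 + A * x + B = (x - e1) * (x - e2) * (x - e3))
    (hfin : (SelR A B).Finite) (hc : (SelR A B).ncard ≤ 4) :
    ∃ (m : ℕ) (l : List (ℤ × ℤ)), Few (e2 - e1) (e3 - e1) m l := by
  classical
  obtain ⟨hf, hn⟩ := sel_le h12 h13 h23 hroot hfin
  have hA : e2 - e1 ≠ 0 := sub_ne_zero.2 h12.symm
  have hB : e3 - e1 ≠ 0 := sub_ne_zero.2 h13.symm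
  have hAB : e2 - e1 ≠ e3 - e1 := fun h0 => h23 (by linarith)
  set n := 2 * (e2 - e1) * (e3 - e1) * ((e2 - e1) - (e3 - e1)) with hnd
  have hn0 : n ≠ 0 := mul_ne_zero (mul_ne_zero (mul_ne_zero two_ne_zero hA) hB)
    (sub_ne_zero.2 hAB)
  have key : ∀ q : ℤ × ℤ, ∃ m : ℕ, (Squarefree q.1 → Squarefree q.2 →
      Pass (e2 - e1) (e3 - e1) q.1 q.2 m → q ∈ Sel (e2 - e1) (e3 - e1)) := by
    intro q
    by_cases hq : q ∈ Sel (e2 - e1) (e3 - e1)
    · exact ⟨1, fun _ _ _ => hq⟩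
    by_cases hs : Squarefree q.1 ∧ Squarefree q.2
    swap
    · exact ⟨1, fun h1 h2 _ => absurd ⟨h1, h2⟩ hs⟩
    obtain ⟨hs1, hs2⟩ := hs
    by_cases hreal : Cov ℝ (e2 - e1) (e3 - e1) q.1 q.2
    · have h3 : ¬ ∀ (p : ℕ) [Fact p.Prime], Cov ℚ_[p] (e2 - e1) (e3 - e1) q.1 q.2 := fun h' =>
        hq ⟨hs1, hs2, loc_of_cov scal_real hA hB hAB hs1.ne_zero hs2.ne_zero hreal,
          fun p _ => loc_of_cov (scal_padic p) hA hB hAB hs1.ne_zero hs2.ne_zero (h' p)⟩
      push Not at h3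
      obtain ⟨p, hp, h4⟩ := h3
      obtain ⟨k, hk⟩ := Pool.Agent.TH841.AL.CPf.cp p _ _ _ _ hs1.ne_zero hs2.ne_zero h4
      exact ⟨max p k, fun _ _ h => absurd (h.2 p (by have := le_max_left p k; omega) hp.out k
        (by have := le_max_right p k; omega)) hk⟩
    · exact ⟨1, fun _ _ h => absurd
        ((Pool.Agent.TH841.AL.RLf.rl _ _ _ _ hs1.ne_zero hs2.ne_zero).2 h.1) hreal⟩
  choose m hm2 using key
  set S : Finset (ℤ × ℤ) := (Finset.Icc (-(|n|)) (|n|)) ×ˢ (Finset.Icc (-(|n|)) (|n|)) with hS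
  refine ⟨∑ q ∈ S, m q, hf.toFinset.toList, ?_, ?_⟩
  · rw [Finset.length_toList, ← Set.ncard_eq_toFinset_card _ hf]
    exact hn.trans hc
  · intro a d ha hd han hdn hpass
    have hmem : (a, d) ∈ S := by
      rw [hS, Finset.mem_product]
      constructor
      · have h1 : |a| ≤ |n| := Int.le_of_dvd (abs_pos.2 hn0) ((abs_dvd_abs _ _).2 han)
        exact Finset.mem_Icc.2 (abs_le.1 h1)
      · have h1 : |d| ≤ |n| := Int.le_of_dvd (abs_pos.2 hn0) ((abs_dvd_abs _ _).2 hdn)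
        exact Finset.mem_Icc.2 (abs_le.1 h1)
    rw [Finset.mem_toList, hf.mem_toFinset]
    have hle : m (a, d) ≤ ∑ q ∈ S, m q :=
      Finset.single_le_sum (f := m) (fun _ _ => Nat.zero_le _) hmem
    exact hm2 (a, d) ha hd ⟨hpass.1, fun p hp hpp k hk =>
      hpass.2 p (by omega) hpp k (by omega)⟩

/-- **exactness of the test** -/
theorem few_sel {A B : ℤ} (hD : 4 * A ^ 3 + 27 * B ^ 2 ≠ 0)
    (hroot : ∀ x : ℤ, x ^ 3 + A * x + B = (x - e1) * (x - e2) * (x - e3)) {m : ℕ}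
    {l : List (ℤ × ℤ)} (h : Few (e2 - e1) (e3 - e1) m l) :
    (SelR A B).Finite ∧ (SelR A B).ncard ≤ 4 := by
  classical
  obtain ⟨hl, h⟩ := h
  have hsub : Sel (e2 - e1) (e3 - e1) ⊆ (l.toFinset : Set (ℤ × ℤ)) := by
    rintro ⟨a, d⟩ ⟨q1, q2, hR, hp⟩
    have q1 : Squarefree a := q1
    have q2 : Squarefree d := q2
    have hdv : ∀ (p : ℕ), p.Prime →
        ¬ (p : ℤ) ∣ 2 * (e2 - e1) * (e3 - e1) * ((e2 - e1) - (e3 - e1)) →
        ¬ (p : ℤ) ∣ a ∧ ¬ (p : ℤ) ∣ d := by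
      intro p hp' hpn
      have : Fact p.Prime := ⟨hp'⟩
      exact (Pool.Agent.W405.SE.goodp_of Pool.Agent.W407.SE.ratp) p _ _ _ _ hpn q1 q2 (hp p)
    have v1 : a ∣ 2 * (e2 - e1) * (e3 - e1) * ((e2 - e1) - (e3 - e1)) :=
      sqf_dvd q1 fun p hp hpd => by
        by_contra hcon
        exact (hdv p hp hcon).1 hpd
    have v2 : d ∣ 2 * (e2 - e1) * (e3 - e1) * ((e2 - e1) - (e3 - e1)) :=
      sqf_dvd q2 fun p hp hpd => by
        by_contra hcon
        exact (hdv p hp hcon).2 hpd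
    rw [Finset.mem_coe, List.mem_toFinset]
    refine h a d q1 q2 v1 v2 ⟨(Pool.Agent.TH841.AL.RLf.rl _ _ _ _ q1.ne_zero q2.ne_zero).1
      (cov_of_loc q1.ne_zero q2.ne_zero hR), fun p _ hpp k _ => ?_⟩
    have : Fact p.Prime := ⟨hpp⟩
    exact mod_of_cov p (cov_of_loc q1.ne_zero q2.ne_zero (hp p)) k
  have hf : (Sel (e2 - e1) (e3 - e1)).Finite := (Finset.finite_toSet _).subset hsub
  have hc : (Sel (e2 - e1) (e3 - e1)).ncard ≤ 4 := by
    refine (Set.ncard_le_ncard hsub (Finset.finite_toSet _)).trans ?_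
    rw [Set.ncard_coe_finset]
    exact (List.toFinset_card_le l).trans hl
  obtain ⟨g1, g2⟩ := Pool.Agent.W597.SE.selc A B e1 e2 e3 (e2 - e1) (e3 - e1) 1 hD hroot
    one_ne_zero (by ring) (by ring) hf
  exact ⟨g1, g2.trans hc⟩

end

end Pool.Agent.R395.FT
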